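import Pool.Agent.Work.MP_727c87_w1.RCI
import Pool.Agent.Work.MP_727c87_cx.Defs
import Pool.Agent.Work.MP_727c87_cx.Racg

set_option autoImplicit false

/-! # MP_727c87_gt, part RC': the output in the language of `Pool.CX` -/

namespace Pool.W1

open Pool.CS Pool.CX

set_option maxRecDepth 100000 in
theorem sep_iff_cross : ∀ a a' b b' : ZMod 12, Sep a a' b b' ↔ Cross a a' b b' := by
  decide +kernel

theorem cxfar_iff : ∀ a b : ZMod 12, Pool.CX.Far a b ↔ Far a b := by decide +kernel

set_option maxRecDepth 100000 in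
theorem good_conn_aux : ∀ (l : Lam) (a : ZMod 12) (k : Fin 12), 1 ≤ k.1 →
    ∃ i : Fin 12, i.1 < k.1 ∧ k.1 ≤ (mt l (a + (i.1 : ZMod 12)) - a).val := by
  decide +kernel

/-- the 24 matchings are admissible -/
theorem good_mt (l : Lam) : Good (mt l) where
  inv := mt_mt l
  far i := (cxfar_iff _ _).2 (far_mt l i)
  conn a k h1 h2 := by
    obtain ⟨i, hi, h⟩ := good_conn_aux l a ⟨k, by omega⟩ h1
    exact ⟨i.1, hi, h⟩

section

variable {Q : Type} (L : LS G12 Q) (mu : Q → ZMod 12 → ZMod 12)

/-- one step along a line: `(q, i)` = chamber `q` entered through its side `i` -/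
def lstep (x : Q × ZMod 12) : Q × ZMod 12 := (L.τ (mu x.1 x.2) x.1, mu x.1 x.2)

/-- `y` is reached from the chamber `z`: cross a side `s` of `z`, then follow the line of `mu`
through `l` chambers in which the strand system `S` contains the chord of the line -/
def LReach1 (S : Q → ZMod 12 → ZMod 12 → Prop) (z y : Q) : Prop :=
  ∃ (s : ZMod 12) (l : ℕ),
    (∀ i < l, S ((lstep L mu)^[i] (L.τ s z, s)).1 ((lstep L mu)^[i] (L.τ s z, s)).2
      (mu ((lstep L mu)^[i] (L.τ s z, s)).1 ((lstep L mu)^[i] (L.τ s z, s)).2)) ∧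
    y = ((lstep L mu)^[l] (L.τ s z, s)).1

/-- chambers reached from `Z` in at most `j` rounds -/
def lreach (S : Q → ZMod 12 → ZMod 12 → Prop) (Z : Set Q) : ℕ → Set Q
  | 0 => Z
  | j + 1 => lreach S Z j ∪ {y | ∃ z ∈ lreach S Z j, LReach1 L mu S z y}

end

/-- the neighbour function of an `LS G12 Q` -/
def nbOf {Q : Type} (L : LS G12 Q) (q : Q) (i : Side) : Q := L.τ i q

theorem invol_nbOf {Q : Type} (L : LS G12 Q) : Invol (nbOf L) := fun g s => L.inv s g

theorem walk_nbOf {Q : Type} (L : LS G12 Q) (q : Q) (l : List (ZMod 12)) :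
    walk (nbOf L) q l = act L q l := rfl

theorem lstep_eq {Q : Type} (L : LS G12 Q) (M : Q → Lam) :
    lstep L (fun q => mt (M q)) = step (nbOf L) M := rfl

theorem lreach_eq {Q : Type} (L : LS G12 Q) (M : Q → Lam) (S : Q → ZMod 12 → ZMod 12 → Prop)
    (Z : Set Q) (j : ℕ) : lreach L (fun q => mt (M q)) S Z j = reach (nbOf L) M S Z j := by
  induction j with
  | zero => rfl
  | succ j ih =>
    rw [lreach, reach, ih]
    rfl

/-- rigid words are determined by their elements (part A) -/
def RigidUnique : Prop :=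
  ∀ u v : List (ZMod 12), Rigid u → Rigid v → wp G12 u = wp G12 v → u = v

theorem rig_of_rigid {u : List (ZMod 12)} (h : Rigid u) : Rig G12 u := by
  have key : ∀ a b : ZMod 12, Far a b → a ≠ b ∧ ¬ G12.Adj a b := by decide
  unfold Rigid at h
  unfold Rig
  exact h.imp (fun a b hab => key a b hab)

/-- rigid words are determined by their elements -/
theorem rigidUnique : RigidUnique := by
  intro u v hu hv e
  exact Rig.unique (rig_of_rigid hv) (rig_of_rigid hu).red e

theorem wp_reverse (v : List (ZMod 12)) : wp G12 v * wp G12 v.reverse = 1 := by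
  induction v with
  | nil => simp [wp_nil]
  | cons a l ih =>
    rw [List.reverse_cons, wp_append, wp_cons, wp_cons, wp_nil, mul_one]
    calc rg G12 a * wp G12 l * (wp G12 l.reverse * rg G12 a)
        = rg G12 a * (wp G12 l * wp G12 l.reverse) * rg G12 a := by group
      _ = 1 := by rw [ih, mul_one, rg_mul_self]

/-- local injectivity gives `InjR` -/
theorem injR_of_local {Q : Type} (L : LS G12 Q) (R : ℕ)
    (h : ∀ (q : Q) (l : List (ZMod 12)), l.length ≤ 2 * R → act L q l = q → wp G12 l = 1) :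
    InjR (nbOf L) R := by
  intro g u v hu hv lu lv e
  apply rigidUnique u v hu hv
  have h1 : act L g (u ++ v.reverse) = g := by
    rw [← walk_nbOf, walk_append, e, walk_reverse (invol_nbOf L)]
  have h2 := h g (u ++ v.reverse) (by rw [List.length_append, List.length_reverse]; omega) h1
  rw [wp_append] at h2
  have h3 := wp_reverse v
  have h4 := eq_inv_of_mul_eq_one_left h2
  have h5 := eq_inv_of_mul_eq_one_left h3
  rw [h4, h5]

/-- Output of part RC' in the language of `Pool.CX`. -/
def Stmt_RCX : Prop :=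
  ∀ (K : ℕ) (e : ℝ), 0 < e → ∃ a : ℝ, 0 < a ∧ ∃ R : ℕ,
    ∀ (Q : Type) [Finite Q] [Nonempty Q] (L : LS G12 Q),
      (∀ (q : Q) (l : List (ZMod 12)), l.length ≤ R → act L q l = q → wp G12 l = 1) →
      ∃ mu : Q → ZMod 12 → ZMod 12, (∀ q, Good (mu q)) ∧
        ∀ S : Q → ZMod 12 → ZMod 12 → Prop,
          (∀ g s t s' t', S g s t → S g s' t' → ¬ Cross s t s' t') →
          ∀ Z : Set Q, (Z.ncard : ℝ) ≤ a * Nat.card Q →
            ((lreach L mu S Z K).ncard : ℝ) < e * Nat.card Q

theorem rcx_of_iter (ITER : Stmt_ITER) : Stmt_RCX := by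
  intro K e he
  obtain ⟨a, ha, R, h⟩ := ITER K e he
  refine ⟨a, ha, 2 * R, ?_⟩
  intro Q _ _ L hloc
  obtain ⟨M, hM⟩ := h Q (nbOf L) (invol_nbOf L) (injR_of_local L R hloc)
  refine ⟨fun q => mt (M q), fun q => good_mt (M q), ?_⟩
  intro S hS Z hZ
  rw [lreach_eq]
  refine hM S ?_ Z hZ
  intro g s t s' t' h1 h2 h3
  exact hS g s t s' t' h1 h2 ((sep_iff_cross _ _ _ _).1 h3)

end Pool.W1
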