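import Pool.Agent.Work.MP_727c87_w1.RCI

/-! # MP_727c87_gt, part RC', block CNT (helper76) -/

namespace Pool.W1

namespace RCCNT

/-- the bound before block number `t` -/
def bd (L q r b : ℕ) {N : ℕ} (t : ℕ) (j : Fin N) : ℕ :=
  if j.1 < t / b then L else if j.1 = t / b then r + q * (t % b) else 0

theorem bd_le {L q r b : ℕ} {N : ℕ} (hb : 0 < b) (hr : r < q) (hL : L = q * (b + 1)) (t : ℕ)
    (j : Fin N) : bd L q r b t j ≤ L := by
  unfold bd
  split_ifs
  · exact le_rfl
  · have h1 : t % b < b := Nat.mod_lt _ hb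
    have h2 : q * (t % b + 1) ≤ q * b := Nat.mul_le_mul_left q h1
    rw [hL]
    nlinarith
  · exact Nat.zero_le _

/-- the bound after the block -/
theorem bd_succ {L q r b : ℕ} {N : ℕ} (hb : 0 < b) (hr : r < q) (hL : L = q * (b + 1)) (t : ℕ)
    (j : Fin N) :
    (if j.1 < t / b then L else if j.1 = t / b then r + q * (t % b) + q else 0) ≤
      bd L q r b (t + 1) j := by
  have h1 : t % b < b := Nat.mod_lt _ hb
  have h2 : q * (t % b + 1) ≤ q * b := Nat.mul_le_mul_left q h1
  have hdm : b * (t / b) + t % b = t := Nat.div_add_mod t b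
  by_cases hc : t % b + 1 < b
  · have e1 : (t + 1) / b = t / b := by
      conv_lhs => rw [← hdm]
      rw [add_assoc, Nat.mul_add_div hb, Nat.div_eq_of_lt hc, add_zero]
    have e2 : (t + 1) % b = t % b + 1 := by
      conv_lhs => rw [← hdm]
      rw [add_assoc, Nat.mul_add_mod, Nat.mod_eq_of_lt hc]
    unfold bd
    rw [e1, e2]
    split_ifs
    · exact le_rfl
    · rw [mul_add, mul_one, add_assoc]
    · exact le_rfl
  · have hc' : t % b + 1 = b := by omega
    have e1 : (t + 1) / b = t / b + 1 := by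
      conv_lhs => rw [← hdm]
      rw [add_assoc, hc', Nat.mul_add_div hb, Nat.div_self hb]
    unfold bd
    rw [e1]
    split_ifs with h3 h4 h5 h6
    · exact le_rfl
    · omega
    · omega
    · rw [hL]; nlinarith
    · omega
    · omega
    · exact Nat.zero_le _
    · exact Nat.zero_le _
    · exact le_rfl

theorem bd_mono {L q r b : ℕ} {N : ℕ} (hb : 0 < b) (hr : r < q) (hL : L = q * (b + 1)) (t : ℕ)
    (j : Fin N) : bd L q r b t j ≤ bd L q r b (t + 1) j := by
  refine le_trans ?_ (bd_succ hb hr hL t j)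
  unfold bd
  split_ifs
  · exact le_rfl
  · omega
  · exact le_rfl

variable {B : Type} (nb : B → Side → B)

/-- the history before block `t` -/
def Hs {N : ℕ} (P : Fin N → State B) (L q r b : ℕ) (t : ℕ) (M : B → Lam) : Fin N → ℕ → State B :=
  fun j i => pos nb M (P j) (min i (bd L q r b t j))

theorem Hs_eq {N : ℕ} {P : Fin N → State B} {L q r b t : ℕ} {M M' : B → Lam} :
    Hs nb P L q r b t M = Hs nb P L q r b t M' ↔
      ∀ (j : Fin N) (i : ℕ), i ≤ bd L q r b t j → pos nb M (P j) i = pos nb M' (P j) i := by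
  constructor
  · intro h j i hi
    have := congrFun (congrFun h j) i
    unfold Hs at this
    rwa [min_eq_left hi] at this
  · intro h
    funext j i
    exact h j _ (min_le_right _ _)

/-- no conflict before block `t` -/
def Av {N : ℕ} (P : Fin N → State B) (L q r b : ℕ) (t : ℕ) (M : B → Lam) : Prop :=
  ∀ (j1 j2 : Fin N) (i1 i2 : ℕ), i1 < bd L q r b t j1 → i2 < bd L q r b t j2 →
    (j1, i1) ≠ (j2, i2) → ¬ Conf M (pos nb M (P j1) i1) (pos nb M (P j2) i2)

/-- block `t` is eligible -/
def Eg {N : ℕ} (P : Fin N → State B) (L q r b k : ℕ) (t : ℕ) (M : B → Lam) : Prop :=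
  ∃ h : t / b < N, ∃ j' < (⟨t / b, h⟩ : Fin N), Sees nb M P L k ⟨t / b, h⟩ (r + q * (t % b)) j'

theorem conf_iff (M : B → Lam) {N : ℕ} (P : Fin N → State B) (j1 j2 : Fin N) (i1 i2 : ℕ) :
    Conf M (pos nb M (P j1) i1) (pos nb M (P j2) i2) ↔
      (pos nb M (P j1) i1).1 = (pos nb M (P j2) i2).1 ∧
      ((pos nb M (P j2) i2).2 = (pos nb M (P j1) i1).2 ∨
        (pos nb M (P j2) i2).2 = (pos nb M (P j1) (i1 + 1)).2 ∨
        Sep (pos nb M (P j1) i1).2 (pos nb M (P j1) (i1 + 1)).2 (pos nb M (P j2) i2).2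
          (pos nb M (P j2) (i2 + 1)).2) := by
  unfold Conf
  rw [pos_succ_snd, pos_succ_snd]
  constructor
  · rintro ⟨h1, h2⟩
    refine ⟨h1, ?_⟩
    rw [← h1]
    exact h2
  · rintro ⟨h1, h2⟩
    refine ⟨h1, ?_⟩
    rw [← h1] at h2
    exact h2

theorem Av_of_Hs {N : ℕ} {P : Fin N → State B} {L q r b t : ℕ} {M M' : B → Lam}
    (h : Hs nb P L q r b t M = Hs nb P L q r b t M') (hA : Av nb P L q r b t M) :
    Av nb P L q r b t M' := by
  rw [Hs_eq] at h
  intro j1 j2 i1 i2 h1 h2 hne hc
  apply hA j1 j2 i1 i2 h1 h2 hne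
  rw [conf_iff] at hc ⊢
  rw [h j1 i1 h1.le, h j1 (i1 + 1) h1, h j2 i2 h2.le, h j2 (i2 + 1) h2]
  exact hc

theorem Eg_of_Hs {N : ℕ} {P : Fin N → State B} {L q r b k t : ℕ} {M M' : B → Lam}
    (h : Hs nb P L q r b t M = Hs nb P L q r b t M') (hE : Eg nb P L q r b k t M) :
    Eg nb P L q r b k t M' := by
  rw [Hs_eq] at h
  obtain ⟨ht, j', hj, w, i', hi', hw, h1, h2⟩ := hE
  have e1 : pos nb M (P ⟨t / b, ht⟩) (r + q * (t % b)) =
      pos nb M' (P ⟨t / b, ht⟩) (r + q * (t % b)) := by
    apply h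
    unfold bd
    rw [if_neg (lt_irrefl _), if_pos rfl]
  have e2 : pos nb M (P j') i' = pos nb M' (P j') i' := by
    apply h
    unfold bd
    have : j'.1 < t / b := hj
    rw [if_pos this]
    exact hi'.le
  rw [e1] at h1 h2
  rw [e2] at h2
  exact ⟨ht, j', hj, w, i', hi', hw, h1, h2⟩

theorem bd_eq_bnd {L q r b : ℕ} {N : ℕ} (t : ℕ) (ht : t / b < N) (j' : Fin N) :
    bd L q r b t j' = bnd L ⟨t / b, ht⟩ (r + q * (t % b)) j' := by
  have h1 : j' < (⟨t / b, ht⟩ : Fin N) ↔ j'.1 < t / b := Iff.rfl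
  have h2 : j' = (⟨t / b, ht⟩ : Fin N) ↔ j'.1 = t / b := Fin.ext_iff
  unfold bd bnd
  simp only [h1, h2]

end RCCNT

open RCCNT in
theorem blk_CNT (MART : Stmt_MART) (STEP : Stmt_STEP) : Stmt_CNT := by
  intro B _ nb N k b r c P hinv hinj hr
  set q := 2 * k + 1 with hq
  set L := q * (b + 1) with hL
  rcases Nat.eq_zero_or_pos b with hb | hb
  · -- no blocks
    subst hb
    have hempty : ∀ M : B → Lam, {x : Fin N × Fin 0 | ∃ j' < x.1,
        Sees nb M P L k x.1 (r + q * x.2.1) j'}.ncard = 0 := by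
      intro M
      rw [Set.ncard_eq_zero]
      ext x
      exact x.2.elim0
    rcases Nat.eq_zero_or_pos c with hc | hc
    · subst hc
      rw [pow_zero, one_mul]
      exact_mod_cast Set.ncard_le_card _
    · have : {M : B → Lam | NoConf nb M P L ∧ c ≤ {x : Fin N × Fin 0 | ∃ j' < x.1,
          Sees nb M P L k x.1 (r + q * x.2.1) j'}.ncard} = ∅ := by
        ext M
        simp only [Set.mem_ofPred_eq, Set.mem_empty_iff_false, iff_false, not_and]
        intro _
        rw [hempty]
        omega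
      rw [this, Set.ncard_empty]
      have h0 : (0 : ℝ) ≤ 1 - 1 / (24 : ℝ) ^ q := by
        have : (1 : ℝ) ≤ (24 : ℝ) ^ q := one_le_pow₀ (by norm_num)
        rw [sub_nonneg]
        exact (div_le_one (by positivity)).2 this
      have := pow_nonneg h0 c
      push_cast
      positivity
  · have main := MART (B → Lam) (Fin N → ℕ → State B) (N * b) (24 ^ q)
      (Hs nb P L q r b) (Av nb P L q r b) (Eg nb P L q r b k) (by positivity) ?_ ?_ ?_ ?_ ?_ c
    · refine le_trans ?_ (le_trans main (le_of_eq (by push_cast; rfl)))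
      norm_cast
      apply Set.ncard_le_ncard ?_ (Set.toFinite _)
      rintro M ⟨h1, h2⟩
      refine ⟨?_, h2.trans ?_⟩
      · intro j1 j2 i1 i2 hi1 hi2 hne
        exact h1 j1 j2 i1 i2 (hi1.trans_le (bd_le hb hr hL _ _))
          (hi2.trans_le (bd_le hb hr hL _ _)) hne
      · refine Set.ncard_le_ncard_of_injOn (fun x : Fin N × Fin b => x.2.1 + b * x.1.1) ?_ ?_
          ((Set.finite_Iio (N * b)).subset (fun t ht => ht.1))
        · rintro ⟨j, β⟩ ⟨j', hj', hs⟩
          have e1 : (β.1 + b * j.1) / b = j.1 := by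
            rw [Nat.add_mul_div_left _ _ hb, Nat.div_eq_of_lt β.2, zero_add]
          have e2 : (β.1 + b * j.1) % b = β.1 := by
            rw [Nat.add_mul_mod_self_left, Nat.mod_eq_of_lt β.2]
          refine ⟨?_, ?_⟩
          · have h3 : β.1 < b := β.2
            have h4 : j.1 + 1 ≤ N := j.2
            calc β.1 + b * j.1 < b + b * j.1 := by omega
              _ = (j.1 + 1) * b := by ring
              _ ≤ N * b := Nat.mul_le_mul_right b h4
          · have h5 : (⟨(β.1 + b * j.1) / b, by rw [e1]; exact j.2⟩ : Fin N) = j := Fin.ext e1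
            refine ⟨by change (β.1 + b * j.1) / b < N; rw [e1]; exact j.2, j', ?_, ?_⟩
            · change j' < (⟨(β.1 + b * j.1) / b, _⟩ : Fin N)
              rw [h5]; exact hj'
            · change Sees nb M P L k (⟨(β.1 + b * j.1) / b, _⟩ : Fin N)
                (r + q * ((β.1 + b * j.1) % b)) j'
              rw [h5, e2]; exact hs
        · rintro ⟨j, β⟩ _ ⟨j2, β2⟩ _ h
          have h : β.1 + b * j.1 = β2.1 + b * j2.1 := h
          have e1 : (β.1 + b * j.1) / b = j.1 := by
            rw [Nat.add_mul_div_left _ _ hb, Nat.div_eq_of_lt β.2, zero_add]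
          have e2 : (β.1 + b * j.1) % b = β.1 := by
            rw [Nat.add_mul_mod_self_left, Nat.mod_eq_of_lt β.2]
          have e3 : (β2.1 + b * j2.1) / b = j2.1 := by
            rw [Nat.add_mul_div_left _ _ hb, Nat.div_eq_of_lt β2.2, zero_add]
          have e4 : (β2.1 + b * j2.1) % b = β2.1 := by
            rw [Nat.add_mul_mod_self_left, Nat.mod_eq_of_lt β2.2]
          rw [Prod.mk.injEq]
          constructor
          · apply Fin.ext
            rw [← e1, h, e3]
          · apply Fin.ext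
            rw [← e2, h, e4]
    · -- histories are nested
      intro t _ M M' h
      rw [Hs_eq] at h ⊢
      intro j i hi
      exact h j i (hi.trans (bd_mono hb hr hL t j))
    · intro t _ M M' h hA
      exact Av_of_Hs nb h hA
    · intro t _ M M' h hE
      exact Eg_of_Hs nb h hE
    · intro t _ M hA j1 j2 i1 i2 h1 h2 hne
      exact hA j1 j2 i1 i2 (h1.trans_le (bd_mono hb hr hL t j1))
        (h2.trans_le (bd_mono hb hr hL t j2)) hne
    · intro t ht M hA hE
      obtain ⟨htN, hE'⟩ := hE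
      have hi0 : r + q * (t % b) + (2 * k + 1) ≤ L := by
        have h1 : t % b < b := Nat.mod_lt _ hb
        have h2 : q * (t % b + 1) ≤ q * b := Nat.mul_le_mul_left q h1
        rw [hL]
        nlinarith
      have hal : Alive nb P L ⟨t / b, htN⟩ (r + q * (t % b)) M := by
        intro j1 j2 i1 i2 h1 h2 hne
        rw [← bd_eq_bnd] at h1 h2
        exact hA j1 j2 i1 i2 h1 h2 hne
      have hagree : ∀ M' : B → Lam, Agree nb P L ⟨t / b, htN⟩ (r + q * (t % b)) M M' ↔
          Hs nb P L q r b t M' = Hs nb P L q r b t M := by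
        intro M'
        rw [Hs_eq]
        constructor
        · intro h j i hi
          rw [bd_eq_bnd t htN] at hi
          exact (h j i hi).symm
        · intro h j i hi
          rw [← bd_eq_bnd] at hi
          exact (h j i hi).symm
      have hstep := STEP B nb N L k P ⟨t / b, htN⟩ (r + q * (t % b)) M hinv hinj hi0 hal hE'
      have e1 : {M' | Agree nb P L ⟨t / b, htN⟩ (r + q * (t % b)) M M'} =
          {M' | Hs nb P L q r b t M' = Hs nb P L q r b t M} := by
        ext M'
        exact hagree M'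
      rw [e1] at hstep
      refine hstep.trans (Nat.mul_le_mul_left _ ?_)
      apply Set.ncard_le_ncard ?_ (Set.toFinite _)
      rintro M' ⟨h1, h2⟩
      refine ⟨(hagree M').1 h1, ?_⟩
      intro hA'
      apply h2
      intro j1 j2 i1 i2 hi1 hi2 hne
      have hb2 : ∀ j' : Fin N, bnd L ⟨t / b, htN⟩ (r + q * (t % b) + (2 * k + 1)) j' ≤
          bd L q r b (t + 1) j' := by
        intro j'
        refine le_trans (le_of_eq ?_) (bd_succ hb hr hL t j')
        have h1 : j' < (⟨t / b, htN⟩ : Fin N) ↔ j'.1 < t / b := Iff.rfl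
        have h2 : j' = (⟨t / b, htN⟩ : Fin N) ↔ j'.1 = t / b := Fin.ext_iff
        unfold bnd
        simp only [h1, h2, hq]
      exact hA' j1 j2 i1 i2 (hi1.trans_le (hb2 j1)) (hi2.trans_le (hb2 j2)) hne

end Pool.W1
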