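import Pool.Agent.Work.MP_727c87_w1.RCI

/-! # MP_727c87_gt, block RC_CUT (helper87): long runs contain many pieces without conflicts -/

namespace Pool.W1

section Cut

variable {B : Type} {nb : B → Side → B} (M : B → Lam)

theorem conf_self (x : State B) : Conf M x x := ⟨rfl, Or.inl rfl⟩

/-- for noncrossing states a conflict means the same chord -/
theorem conf_cases {x y : State B} (h : Conf M x y) (hc : ¬ Crs M x y) :
    y = x ∨ y = rev M x := by
  obtain ⟨h1, h2 | h2 | h2⟩ := h
  · left; exact Prod.ext h1.symm h2
  · right; exact Prod.ext h1.symm h2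
  · exact absurd ⟨h1, h2⟩ hc

/-- `rev` turns the line around -/
theorem pos_rev_pos (h : Invol nb) (x : State B) (i : ℕ) :
    pos nb M (rev M (pos nb M x i)) i = rev M x := by
  induction i generalizing x with
  | zero => rfl
  | succ i ih =>
    have e1 : pos nb M x (i + 1) = pos nb M (step nb M x) i := by
      rw [Nat.add_comm, pos_add]; rfl
    rw [pos_succ, e1, ih (step nb M x)]
    exact step_rev_step M h x

end Cut

theorem blk_CUT : Stmt_CUT := by
  classical
  intro B _ nb M N L ell hI hR hL hNC hcard
  haveI : Finite (State B) := inferInstanceAs (Finite (B × ZMod 12))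
  -- the permutation
  have hinj : Function.Injective (step nb M) := step_injective M hI
  have hbij : Function.Bijective (step nb M) := Finite.injective_iff_bijective.1 hinj
  let σ : Equiv.Perm (State B) := Equiv.ofBijective (step nb M) hbij
  have hσ : ∀ (x : State B) (i : ℕ), pos nb M x i = (σ ^ (i : ℤ)) x := by
    intro x i
    rw [zpow_natCast]
    induction i with
    | zero => rfl
    | succ i ih => rw [pos_succ, ih, pow_succ']; rfl
  -- pieces inside `Cov`
  let Pall : Set (State B) := {p | ∀ i < L, pos nb M p i ∈ Cov nb M ell}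
  let V : Set (State B) := {y | ∃ p ∈ Pall, ∃ t < L, pos nb M p t = y}
  let E : Set (State B) := {x | ell x ≠ 0}
  let W : Set (State B) := (fun q : State B × ℕ => pos nb M q.1 ((ell q.1 / L) * L + q.2)) ''
    (E ×ˢ ((Finset.range L : Finset ℕ) : Set ℕ))
  have hcov : Cov nb M ell ⊆ V ∪ W := by
    rintro y ⟨x, i, hi, rfl⟩
    by_cases hc : (i / L + 1) * L ≤ ell x
    · left
      refine ⟨pos nb M x (i / L * L), ?_, i % L, Nat.mod_lt _ hL, ?_⟩
      · intro t ht
        refine ⟨x, i / L * L + t, ?_, ?_⟩
        · have : (i / L + 1) * L = i / L * L + L := by ring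
          omega
        · rw [← pos_add]; rfl
      · rw [← pos_add, Nat.div_add_mod' i L]; rfl
    · right
      refine ⟨(x, i % L), ⟨?_, ?_⟩, ?_⟩
      · show ell x ≠ 0
        omega
      · simp [Nat.mod_lt _ hL]
      · have h1 : i / L = ell x / L := by
          apply le_antisymm
          · exact Nat.div_le_div_right hi.le
          · have : ell x / L < i / L + 1 := by
              rw [Nat.div_lt_iff_lt_mul hL]
              omega
            omega
        show pos nb M x (ell x / L * L + i % L) = _
        rw [← h1, Nat.div_add_mod' i L]; rfl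
  have hW : W.ncard ≤ E.ncard * L := by
    calc W.ncard ≤ (E ×ˢ ((Finset.range L : Finset ℕ) : Set ℕ)).ncard :=
          Set.ncard_image_le ((Set.toFinite E).prod (Finset.finite_toSet _))
      _ = E.ncard * L := by
          rw [Set.ncard_prod, Set.ncard_coe_finset, Finset.card_range]
  have hV : 8 * L * N ≤ V.ncard := by
    have h1 : (Cov nb M ell).ncard ≤ (V ∪ W).ncard :=
      Set.ncard_le_ncard hcov (Set.toFinite _)
    have h2 := Set.ncard_union_le V W
    have h3 : E.ncard * L + 8 * L * N ≤ (Cov nb M ell).ncard := hcard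
    omega
  -- the region blocked by a piece
  let blk : State B → Finset (State B) := fun p =>
    (Finset.range (4 * L)).image (fun c : ℕ => (σ ^ ((c : ℤ) - 2 * L)) p) ∪
      (Finset.range (4 * L)).image (fun c : ℕ => (σ ^ ((c : ℤ) - 2 * L)) (rev M p))
  have hblk : ∀ p, (blk p).card ≤ 8 * L := by
    intro p
    refine (Finset.card_union_le _ _).trans ?_
    have h1 := Finset.card_image_le (s := Finset.range (4 * L))
      (f := fun c : ℕ => (σ ^ ((c : ℤ) - 2 * L)) p)
    have h2 := Finset.card_image_le (s := Finset.range (4 * L))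
      (f := fun c : ℕ => (σ ^ ((c : ℤ) - 2 * L)) (rev M p))
    rw [Finset.card_range] at h1 h2
    omega
  have hmem1 : ∀ (p : State B) (z : ℤ), -(2 * L : ℤ) ≤ z → z < 2 * L → (σ ^ z) p ∈ blk p := by
    intro p z h1 h2
    refine Finset.mem_union_left _ (Finset.mem_image.2 ⟨(z + 2 * L).toNat, ?_, ?_⟩)
    · rw [Finset.mem_range]; omega
    · have : ((z + 2 * L).toNat : ℤ) - 2 * L = z := by omega
      rw [this]
  have hmem2 : ∀ (p : State B) (z : ℤ), -(2 * L : ℤ) ≤ z → z < 2 * L →
      (σ ^ z) (rev M p) ∈ blk p := by
    intro p z h1 h2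
    refine Finset.mem_union_right _ (Finset.mem_image.2 ⟨(z + 2 * L).toNat, ?_, ?_⟩)
    · rw [Finset.mem_range]; omega
    · have : ((z + 2 * L).toNat : ℤ) - 2 * L = z := by omega
      rw [this]
  -- a conflict with the piece of `p'` puts the whole piece of `p` into the blocked region
  have hkey : ∀ p ∈ Pall, ∀ p' ∈ Pall, ∀ i i' : ℕ, i < L → i' < L →
      Conf M (pos nb M p i) (pos nb M p' i') → ∀ t < L, pos nb M p t ∈ blk p' := by
    intro p hp p' hp' i i' hi hi' hconf t ht
    have hcr := hNC _ (hp i hi) _ (hp' i' hi')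
    rcases conf_cases M hconf hcr with e | e
    · -- same state
      have e2 : p = (σ ^ ((i' : ℤ) - i)) p' := by
        rw [hσ p' i', hσ p i] at e
        rw [sub_eq_add_neg, add_comm, zpow_add, Equiv.Perm.mul_apply, e,
          ← Equiv.Perm.mul_apply, ← zpow_add]
        simp
      have e3 : pos nb M p t = (σ ^ ((t : ℤ) + (i' - i))) p' := by
        rw [hσ, zpow_add, Equiv.Perm.mul_apply, ← e2]
      rw [e3]
      exact hmem1 _ _ (by omega) (by omega)
    · -- reversed state
      have e1 : pos nb M (pos nb M p i) i' = rev M p' := by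
        have h5 := pos_rev_pos M hI p' i'
        rw [e, rev_rev] at h5
        exact h5
      have e2 : p = (σ ^ (-(i : ℤ) - i')) (rev M p') := by
        rw [hσ p i, hσ _ i', ← Equiv.Perm.mul_apply, ← zpow_add] at e1
        rw [← e1, ← Equiv.Perm.mul_apply, ← zpow_add]
        have : (-(i : ℤ) - i' + (i' + i)) = 0 := by ring
        rw [this]
        simp
      have e3 : pos nb M p t = (σ ^ ((t : ℤ) + (-(i : ℤ) - i'))) (rev M p') := by
        rw [hσ, zpow_add, Equiv.Perm.mul_apply, ← e2]
      rw [e3]
      exact hmem2 _ _ (by omega) (by omega)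
  -- conflicts are symmetric for noncrossing states
  have hsymm : ∀ p ∈ Pall, ∀ p' ∈ Pall, ∀ i i' : ℕ, i < L → i' < L →
      Conf M (pos nb M p i) (pos nb M p' i') → Conf M (pos nb M p' i') (pos nb M p i) := by
    intro p hp p' hp' i i' hi hi' hconf
    have hcr := hNC _ (hp i hi) _ (hp' i' hi')
    rcases conf_cases M hconf hcr with e | e
    · rw [e]; exact conf_self M _
    · rw [e]
      refine ⟨rfl, Or.inr (Or.inl ?_)⟩
      simp [rev, mt_mt]
  -- greedy choice
  have hgreedy : ∀ n ≤ N, ∃ P : Fin n → State B, (∀ j, P j ∈ Pall) ∧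
      ∀ j j' : Fin n, j ≠ j' → ∀ i i' : ℕ, i < L → i' < L →
        ¬ Conf M (pos nb M (P j) i) (pos nb M (P j') i') := by
    intro n
    induction n with
    | zero => exact fun _ => ⟨Fin.elim0, fun j => j.elim0, fun j => j.elim0⟩
    | succ n ih =>
      intro hn
      obtain ⟨P, hP1, hP2⟩ := ih (by omega)
      let U : Finset (State B) := Finset.univ.biUnion (fun j : Fin n => blk (P j))
      have hU : U.card ≤ n * (8 * L) := by
        have := Finset.card_biUnion_le_card_mul (Finset.univ : Finset (Fin n))
          (fun j => blk (P j)) (8 * L) (fun j _ => hblk _)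
        simpa using this
      have hlt : (U : Set (State B)).ncard < V.ncard := by
        rw [Set.ncard_coe_finset]
        have h6 : n * (8 * L) < N * (8 * L) := by
          apply Nat.mul_lt_mul_of_pos_right (by omega) (by omega)
        have h7 : N * (8 * L) = 8 * L * N := by ring
        omega
      obtain ⟨y, hyV, hyU⟩ := Set.exists_mem_notMem_of_ncard_lt_ncard hlt (Finset.finite_toSet _)
      obtain ⟨p, hp, t, ht, rfl⟩ := hyV
      have hno : ∀ j : Fin n, ∀ i i' : ℕ, i < L → i' < L →
          ¬ Conf M (pos nb M p i) (pos nb M (P j) i') := by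
        intro j i i' hi hi' hconf
        apply hyU
        have := hkey p hp (P j) (hP1 j) i i' hi hi' hconf t ht
        exact Finset.mem_coe.2 (Finset.mem_biUnion.2 ⟨j, Finset.mem_univ _, this⟩)
      refine ⟨Fin.cons p P, ?_, ?_⟩
      · intro j
        refine Fin.cases ?_ ?_ j
        · simpa using hp
        · intro j; simpa using hP1 j
      · intro j j'
        refine Fin.cases ?_ ?_ j
        · refine Fin.cases ?_ ?_ j'
          · intro h; exact absurd rfl h
          · intro j' _ i i' hi hi'
            simpa using hno j' i i' hi hi'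
        · intro j
          refine Fin.cases ?_ ?_ j'
          · intro _ i i' hi hi'
            simp only [Fin.cons_succ, Fin.cons_zero]
            intro hconf
            exact hno j i' i hi' hi (hsymm _ (hP1 j) _ hp _ _ hi hi' hconf)
          · intro j' hne i i' hi hi'
            simp only [Fin.cons_succ]
            exact hP2 j j' (fun h => hne (by rw [h])) i i' hi hi'
  obtain ⟨P, hP1, hP2⟩ := hgreedy N le_rfl
  refine ⟨P, ?_, ?_⟩
  · intro j j' e
    by_contra hne
    refine hP2 j j' hne 0 0 hL hL ?_
    rw [e]
    exact conf_self M _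
  · intro j j' i i' hi hi' hne hconf
    by_cases hj : j = j'
    · subst hj
      have hii : i ≠ i' := fun h => hne (by rw [h])
      rcases Nat.lt_or_gt_of_ne hii with hlt | hlt
      · exact pos_fst_ne M hR (P j) hlt (by omega) hconf.1
      · exact pos_fst_ne M hR (P j) hlt (by omega) hconf.1.symm
    · exact hP2 j j' hj i i' hi hi' hconf

end Pool.W1
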