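import Pool.Agent.Work.MP_727c87_w1.RCI

/-!
# Block DET (deps LG)
-/

set_option autoImplicit false

namespace Pool.W1

theorem blk_DET (LG : Stmt_LG) : Stmt_DET := by
  intro B _ nb M N k b P hinv hinj hb hcard
  classical
  obtain ⟨q, hq⟩ : ∃ q, q = 2 * k + 1 := ⟨_, rfl⟩
  obtain ⟨L, hL⟩ : ∃ L, L = q * (b + 1) := ⟨_, rfl⟩
  have hq0 : 0 < q := by omega
  rw [← hq] at hinj hcard ⊢
  rw [← hL] at hinj hcard ⊢
  -- the states that see no other piece
  let X : Set (Fin N × ℕ) := {x | x.2 < L ∧ ∀ j', j' ≠ x.1 → ¬ Sees nb M P L k x.1 x.2 j'}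
  have hXfin : X.Finite := by
    refine Set.Finite.subset (Set.Finite.prod (Set.finite_univ (α := Fin N)) (Set.finite_Iio L)) ?_
    rintro ⟨j, i⟩ hx
    exact ⟨Set.mem_univ _, hx.1⟩
  have hLG := LG B nb M N L k P hinv hinj X (fun x hx => hx)
  have hX4 : 4 * X.ncard ≤ N * L := by
    have h6 : (6 : ℕ) ^ k = 2 ^ k * 3 ^ k := by rw [← Nat.mul_pow]
    rw [h6] at hLG
    have h3 : 0 < 3 ^ k := Nat.pos_of_ne_zero (by positivity)
    have h2 : 0 < 2 ^ k := Nat.pos_of_ne_zero (by positivity)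
    have h7 : X.ncard * 2 ^ k ≤ Nat.card B := by
      refine Nat.le_of_mul_le_mul_left ?_ h3
      calc 3 ^ k * (X.ncard * 2 ^ k) = X.ncard * (2 ^ k * 3 ^ k) := by ring
        _ ≤ 3 ^ k * Nat.card B := hLG
    refine Nat.le_of_mul_le_mul_left ?_ h2
    calc 2 ^ k * (4 * X.ncard) = 4 * (X.ncard * 2 ^ k) := by ring
      _ ≤ 4 * Nat.card B := Nat.mul_le_mul_left 4 h7
      _ ≤ 2 ^ k * (N * L) := hcard
  let E : ℕ → Set (Fin N × Fin b) := fun r =>
    {x | ∃ j' < x.1, Sees nb M P L k x.1 (r + q * x.2.1) j'}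
  let F : ℕ → Set (Fin N × Fin b) := fun r =>
    {x | ∃ j' < x.1, Sees nb M (P ∘ Fin.rev) L k x.1 (r + q * x.2.1) j'}
  let Y : ℕ → Set (Fin N × Fin b) := fun r => {x | (x.1, r + q * x.2.1) ∈ X}
  -- every block sees an earlier piece or a later piece or nothing
  have hcov : ∀ r < q, N * b ≤ (E r).ncard + (F r).ncard + (Y r).ncard := by
    intro r hr
    have hinj2 : Function.Injective (fun x : Fin N × Fin b => (Fin.rev x.1, x.2)) := by
      rintro ⟨a, c⟩ ⟨a', c'⟩ h
      simp only [Prod.mk.injEq, Fin.rev_inj] at h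
      rw [h.1, h.2]
    let F' : Set (Fin N × Fin b) := (fun x : Fin N × Fin b => (Fin.rev x.1, x.2)) ⁻¹' (F r)
    have hF' : F'.ncard ≤ (F r).ncard := by
      rw [← Set.ncard_image_of_injective F' hinj2]
      exact Set.ncard_le_ncard (Set.image_preimage_subset _ _) (Set.toFinite _)
    have hsub : (Set.univ : Set (Fin N × Fin b)) ⊆ (E r ∪ F') ∪ Y r := by
      rintro ⟨j, β⟩ _
      by_cases hY : (j, r + q * β.1) ∈ X
      · exact Or.inr hY
      · left
        have hlt : r + q * β.1 < L := by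
          have h1 := β.2
          have h2 : q * (β.1 + 1) ≤ q * (b + 1) := Nat.mul_le_mul_left q (by omega)
          rw [Nat.mul_add, Nat.mul_one] at h2
          rw [hL]
          omega
        have hex : ∃ j', j' ≠ j ∧ Sees nb M P L k j (r + q * β.1) j' := by
          by_contra hc
          push Not at hc
          exact hY ⟨hlt, hc⟩
        obtain ⟨j', hne, hs⟩ := hex
        rcases lt_or_gt_of_ne hne with h | h
        · exact Or.inl ⟨j', h, hs⟩
        · refine Or.inr ⟨Fin.rev j', Fin.rev_lt_rev.2 h, ?_⟩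
          have e1 : (P ∘ Fin.rev) (Fin.rev j) = P j := by simp
          have e2 : (P ∘ Fin.rev) (Fin.rev j') = P j' := by simp
          unfold Sees
          rw [e1, e2]
          exact hs
    have hc := Set.ncard_le_ncard hsub (Set.toFinite _)
    rw [Set.ncard_univ, Nat.card_prod, Nat.card_fin, Nat.card_fin] at hc
    have h1 := Set.ncard_union_le (E r ∪ F') (Y r)
    have h2 := Set.ncard_union_le (E r) F'
    omega
  -- the sets `Y r` are disjoint parts of `X`
  have hY : ∑ r ∈ Finset.range q, (Y r).ncard ≤ X.ncard := by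
    let Xf := hXfin.toFinset
    have hXc : X.ncard = Xf.card := Set.ncard_eq_toFinset_card X hXfin
    rw [hXc, Finset.card_eq_sum_card_fiberwise (f := fun x : Fin N × ℕ => x.2 % q)
      (t := Finset.range q) (fun x _ => by simpa using Nat.mod_lt _ hq0)]
    refine Finset.sum_le_sum fun r hr => ?_
    rw [Finset.mem_range] at hr
    have hinj3 : Function.Injective (fun x : Fin N × Fin b => (x.1, r + q * x.2.1)) := by
      rintro ⟨a, c⟩ ⟨a', c'⟩ h
      simp only [Prod.mk.injEq, Nat.add_left_cancel_iff] at h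
      have h3 := Nat.eq_of_mul_eq_mul_left hq0 h.2
      rw [h.1, Fin.ext h3]
    rw [← Set.ncard_image_of_injective (Y r) hinj3, ← Set.ncard_coe_finset]
    refine Set.ncard_le_ncard ?_ (Set.toFinite _)
    rintro _ ⟨⟨j, β⟩, hx, rfl⟩
    simp only [Finset.coe_filter, Set.mem_ofPred_eq]
    refine ⟨hXfin.mem_toFinset.2 hx, ?_⟩
    rw [Nat.add_mul_mod_self_left, Nat.mod_eq_of_lt hr]
  by_contra hcon
  push Not at hcon
  have hle : ∀ r ∈ Finset.range q, 4 * (N * b) + 1 ≤ 2 * (N * (b + 1)) + 4 * (Y r).ncard := by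
    intro r hr
    rw [Finset.mem_range] at hr
    have h1 := hcov r hr
    obtain ⟨h2, h3⟩ := hcon r hr
    change 4 * (E r).ncard < _ at h2
    change 4 * (F r).ncard < _ at h3
    omega
  have hsum := Finset.sum_le_sum hle
  have hs1 : ∑ _r ∈ Finset.range q, (4 * (N * b) + 1) = q * (4 * (N * b) + 1) := by
    rw [Finset.sum_const, Finset.card_range, smul_eq_mul]
  have hs2 : ∑ r ∈ Finset.range q, (2 * (N * (b + 1)) + 4 * (Y r).ncard) =
      q * (2 * (N * (b + 1))) + 4 * ∑ r ∈ Finset.range q, (Y r).ncard := by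
    rw [Finset.sum_add_distrib, Finset.sum_const, Finset.card_range, smul_eq_mul, Finset.mul_sum]
  rw [hs1, hs2] at hsum
  have h5 : q * (4 * (N * b) + 1) ≤ q * (2 * (N * (b + 1))) + N * L := by omega
  have h6 : q * (2 * (N * (b + 1))) + N * L = q * (3 * (N * (b + 1))) := by rw [hL]; ring
  rw [h6] at h5
  have h7 := Nat.le_of_mul_le_mul_left h5 hq0
  have h8 : N * 3 ≤ N * b := Nat.mul_le_mul_left N hb
  rw [Nat.mul_add, Nat.mul_one] at h7
  omega

end Pool.W1
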