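import Pool.Agent.Work.MP_727c87_w1.RCI

/-! # MP_727c87_gt, block ITER -/

namespace Pool.W1

/-- every iterate on a finite type occurs among the first `card` ones -/
theorem iterate_lt_card {α : Type*} [Finite α] (f : α → α) (x : α) (m : ℕ) :
    ∃ i < Nat.card α, f^[i] x = f^[m] x := by
  induction m using Nat.strong_induction_on with
  | _ m ih =>
    by_cases hm : m < Nat.card α
    · exact ⟨m, hm, rfl⟩
    · push Not at hm
      haveI := Fintype.ofFinite α
      obtain ⟨i, j, hij, he⟩ : ∃ i j : Fin (Nat.card α + 1), i < j ∧ f^[i] x = f^[j] x := by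
        have hc : Fintype.card α < Fintype.card (Fin (Nat.card α + 1)) := by
          rw [Fintype.card_fin, Nat.card_eq_fintype_card]
          omega
        obtain ⟨i, j, hne, he⟩ :=
          Fintype.exists_ne_map_eq_of_card_lt (fun i : Fin (Nat.card α + 1) => f^[i] x) hc
        rcases lt_or_gt_of_ne hne with h | h
        · exact ⟨i, j, h, he⟩
        · exact ⟨j, i, h, he.symm⟩
      have hj : (j : ℕ) ≤ m := by
        have := j.2
        omega
      have hij' : (i : ℕ) < j := hij
      have e2 : f^[m] x = f^[m - j + i] x := by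
        have : m = (m - j) + j := by omega
        conv_lhs => rw [this]
        rw [Function.iterate_add_apply, Function.iterate_add_apply, ← he]
      obtain ⟨i', hi', h'⟩ := ih (m - j + i) (by omega)
      exact ⟨i', hi', h'.trans e2.symm⟩

section Step

variable {B : Type} [Finite B] (nb : B → Side → B)

/-- the chord of the line of `M` at the state `x` belongs to `S` -/
def InS (M : B → Lam) (S : B → Side → Side → Prop) (x : State B) : Prop :=
  S x.1 x.2 (mt (M x.1) x.2)

open Classical in
/-- lengths of the runs that start at the neighbours of `Y` -/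
noncomputable def ellY (M : B → Lam) (S : B → Side → Side → Prop) (Y : Set B)
    (x : State B) : ℕ :=
  if ∃ z ∈ Y, ∃ s, x = (nb z s, s) then
    Nat.findGreatest (fun l => ∀ i < l, InS M S (pos nb M x i)) (Nat.card (State B)) else 0

theorem starts_ncard (Y : Set B) :
    {x : State B | ∃ z ∈ Y, ∃ s, x = (nb z s, s)}.ncard ≤ 12 * Y.ncard := by
  have h1 : {x : State B | ∃ z ∈ Y, ∃ s, x = (nb z s, s)} ⊆
      (fun p : B × Side => ((nb p.1 p.2, p.2) : State B)) '' (Y ×ˢ (Set.univ : Set Side)) := by
    rintro x ⟨z, hz, s, rfl⟩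
    exact ⟨(z, s), ⟨hz, Set.mem_univ _⟩, rfl⟩
  refine (Set.ncard_le_ncard h1 (Set.toFinite _)).trans ?_
  refine (Set.ncard_image_le (Set.toFinite _)).trans ?_
  rw [Set.ncard_prod, Set.ncard_univ]
  have : Nat.card Side = 12 := by
    rw [Nat.card_eq_fintype_card]
    exact ZMod.card 12
  rw [this]
  omega

theorem ellY_spec (M : B → Lam) (S : B → Side → Side → Prop) (Y : Set B) (x : State B) (i : ℕ)
    (hi : i < ellY nb M S Y x) : InS M S (pos nb M x i) := by
  classical
  unfold ellY at hi
  split_ifs at hi with h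
  · have h0 : (fun l => ∀ i < l, InS M S (pos nb M x i)) 0 := by
      intro i hi
      omega
    exact Nat.findGreatest_spec (P := fun l => ∀ i < l, InS M S (pos nb M x i))
      (Nat.zero_le _) h0 i hi
  · omega

theorem step_bound (M : B → Lam) (S : B → Side → Side → Prop) (hS : StrandNC S) (Y : Set B)
    (e a : ℝ) (hM : RCgood nb M e a) (hY : (12 * Y.ncard : ℝ) ≤ a * Nat.card B) :
    ({y | ∃ z ∈ Y, Reach1 nb M S z y}.ncard : ℝ) ≤ 12 * Y.ncard + e * Nat.card B := by
  classical
  set ell := ellY nb M S Y with hell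
  have hst : ({x | ell x ≠ 0}.ncard : ℝ) ≤ a * Nat.card B := by
    refine le_trans ?_ hY
    have h1 : {x | ell x ≠ 0} ⊆ {x : State B | ∃ z ∈ Y, ∃ s, x = (nb z s, s)} := by
      intro x hx
      by_contra hcon
      apply hx
      have hcon' : ¬ ∃ z ∈ Y, ∃ s, x = (nb z s, s) := hcon
      rw [hell]
      unfold ellY
      rw [if_neg hcon']
    have h2 := (Set.ncard_le_ncard h1 (Set.toFinite _)).trans (starts_ncard nb Y)
    exact_mod_cast h2
  have hin : ∀ y ∈ Cov nb M ell, InS M S y := by
    rintro y ⟨x, i, hi, rfl⟩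
    exact ellY_spec nb M S Y x i hi
  have hnc : NonCrossing nb M ell := by
    intro x hx y hy hc
    have hx' := hin x hx
    have hy' := hin y hy
    unfold InS at hx' hy'
    obtain ⟨h1, h2⟩ := hc
    rw [← h1] at hy'
    exact hS x.1 _ _ _ _ hx' hy' h2
  have hcov := hM ell hst hnc
  have hsub : {y | ∃ z ∈ Y, Reach1 nb M S z y} ⊆
      (Prod.fst '' {x : State B | ∃ z ∈ Y, ∃ s, x = (nb z s, s)}) ∪
      ((fun w => (step nb M w).1) '' Cov nb M ell) := by
    rintro y ⟨z, hz, s, l, hl, rfl⟩
    rcases Nat.eq_zero_or_pos l with rfl | hpos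
    · left
      exact ⟨(nb z s, s), ⟨z, hz, s, rfl⟩, rfl⟩
    · right
      set x : State B := (nb z s, s) with hx
      have hst : ∃ z ∈ Y, ∃ s, x = (nb z s, s) := ⟨z, hz, s, rfl⟩
      have hellx : ell x = Nat.findGreatest (fun l => ∀ i < l, InS M S (pos nb M x i))
          (Nat.card (State B)) := by
        rw [hell]
        unfold ellY
        rw [if_pos hst]
      have hl' : ∀ i < l, InS M S (pos nb M x i) := hl
      obtain ⟨i, hi, hei⟩ : ∃ i < ell x, pos nb M x i = pos nb M x (l - 1) := by
        by_cases hc : l ≤ Nat.card (State B)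
        · refine ⟨l - 1, ?_, rfl⟩
          rw [hellx]
          have : l ≤ Nat.findGreatest (fun l => ∀ i < l, InS M S (pos nb M x i))
              (Nat.card (State B)) :=
            Nat.le_findGreatest (P := fun l => ∀ i < l, InS M S (pos nb M x i)) hc hl'
          omega
        · push Not at hc
          obtain ⟨i, hi, he⟩ := iterate_lt_card (step nb M) x (l - 1)
          refine ⟨i, ?_, he⟩
          rw [hellx]
          have : Nat.card (State B) ≤ Nat.findGreatest (fun l => ∀ i < l, InS M S (pos nb M x i))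
              (Nat.card (State B)) :=
            Nat.le_findGreatest (P := fun l => ∀ i < l, InS M S (pos nb M x i)) le_rfl
              (fun i hi => hl' i (by omega))
          omega
      refine ⟨pos nb M x (l - 1), ⟨x, i, hi, hei⟩, ?_⟩
      show (step nb M (pos nb M x (l - 1))).1 = (pos nb M x l).1
      rw [← pos_succ]
      have : l - 1 + 1 = l := by omega
      rw [this]
  have h3 : {y | ∃ z ∈ Y, Reach1 nb M S z y}.ncard ≤ 12 * Y.ncard + (Cov nb M ell).ncard := by
    refine (Set.ncard_le_ncard hsub (Set.toFinite _)).trans ?_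
    refine (Set.ncard_union_le _ _).trans ?_
    apply Nat.add_le_add
    · exact (Set.ncard_image_le (Set.toFinite _)).trans (starts_ncard nb Y)
    · exact Set.ncard_image_le (Set.toFinite _)
  have h4 : ({y | ∃ z ∈ Y, Reach1 nb M S z y}.ncard : ℝ) ≤
      12 * Y.ncard + (Cov nb M ell).ncard := by exact_mod_cast h3
  linarith

end Step

/-- the property of the claim -/
def GoodK {B : Type} (nb : B → Side → B) (M : B → Lam) (K : ℕ) (e a : ℝ) : Prop :=
  ∀ S : B → Side → Side → Prop, StrandNC S → ∀ Z : Set B, (Z.ncard : ℝ) ≤ a * Nat.card B →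
    ((reach nb M S Z K).ncard : ℝ) ≤ e * Nat.card B

theorem claimK (RC : Stmt_RC) (K : ℕ) : ∀ e : ℝ, 0 < e → ∃ a : ℝ, 0 < a ∧ ∀ d : ℝ, 0 < d →
    ∃ R : ℕ, ∀ (B : Type) [Finite B] [Nonempty B] (nb : B → Side → B), Invol nb → InjR nb R →
      ({M : B → Lam | ¬ GoodK nb M K e a}.ncard : ℝ) ≤ d * (Nat.card (B → Lam) : ℝ) := by
  induction K with
  | zero =>
    intro e he
    refine ⟨e, he, fun d hd => ⟨0, ?_⟩⟩
    intro B _ _ nb _ _
    have : {M : B → Lam | ¬ GoodK nb M 0 e e} = ∅ := by
      ext M
      simp only [Set.mem_ofPred_eq, Set.mem_empty_iff_false, iff_false, not_not]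
      intro S _ Z hZ
      exact hZ
    rw [this]
    simp only [Set.ncard_empty, Nat.cast_zero]
    positivity
  | succ K ih =>
    intro e he
    obtain ⟨a', ha', hRC⟩ := RC (e / 2) (by linarith)
    obtain ⟨a, ha, hIH⟩ := ih (min (e / 26) (a' / 12)) (lt_min (by linarith) (by linarith))
    refine ⟨a, ha, fun d hd => ?_⟩
    obtain ⟨R1, hR1⟩ := hRC (d / 2) (by linarith)
    obtain ⟨R2, hR2⟩ := hIH (d / 2) (by linarith)
    refine ⟨max R1 R2, ?_⟩
    intro B _ _ nb hI hinj
    have b1 := hR1 B nb hI (hinj.mono (le_max_left _ _))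
    have b2 := hR2 B nb hI (hinj.mono (le_max_right _ _))
    have hsub : {M : B → Lam | ¬ GoodK nb M (K + 1) e a} ⊆
        {M : B → Lam | ¬ RCgood nb M (e / 2) a'} ∪
        {M : B → Lam | ¬ GoodK nb M K (min (e / 26) (a' / 12)) a} := by
      intro M hM
      by_contra hcon
      rw [Set.mem_union, not_or] at hcon
      obtain ⟨h1, h2⟩ := hcon
      have h1' : RCgood nb M (e / 2) a' := by
        by_contra h
        exact h1 h
      have h2' : GoodK nb M K (min (e / 26) (a' / 12)) a := by
        by_contra h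
        exact h2 h
      apply hM
      intro S hS Z hZ
      have hY := h2' S hS Z hZ
      set Y := reach nb M S Z K with hYdef
      have hn : (0 : ℝ) ≤ Nat.card B := by positivity
      have hY1 : (Y.ncard : ℝ) ≤ e / 26 * Nat.card B :=
        hY.trans (mul_le_mul_of_nonneg_right (min_le_left _ _) hn)
      have hY2 : (Y.ncard : ℝ) ≤ a' / 12 * Nat.card B :=
        hY.trans (mul_le_mul_of_nonneg_right (min_le_right _ _) hn)
      have hst := step_bound nb M S hS Y (e / 2) a' h1' (by linarith)
      have hr : reach nb M S Z (K + 1) = Y ∪ {y | ∃ z ∈ Y, Reach1 nb M S z y} := rfl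
      rw [hr]
      have hu : ((Y ∪ {y | ∃ z ∈ Y, Reach1 nb M S z y}).ncard : ℝ) ≤
          Y.ncard + {y | ∃ z ∈ Y, Reach1 nb M S z y}.ncard := by
        exact_mod_cast Set.ncard_union_le _ _
      linarith
    have h3 : ({M : B → Lam | ¬ GoodK nb M (K + 1) e a}.ncard : ℝ) ≤
        {M : B → Lam | ¬ RCgood nb M (e / 2) a'}.ncard +
        {M : B → Lam | ¬ GoodK nb M K (min (e / 26) (a' / 12)) a}.ncard := by
      exact_mod_cast (Set.ncard_le_ncard hsub (Set.toFinite _)).trans (Set.ncard_union_le _ _)
    linarith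

theorem blk_ITER (RC : Stmt_RC) : Stmt_ITER := by
  intro K e he
  obtain ⟨a, ha, hd⟩ := claimK RC K (e / 2) (by linarith)
  obtain ⟨R, hR⟩ := hd (1 / 2) (by norm_num)
  refine ⟨a, ha, R, ?_⟩
  intro B _ _ nb hI hinj
  have hb := hR B nb hI hinj
  have hpos : (0 : ℝ) < (Nat.card (B → Lam) : ℝ) := by
    have : 0 < Nat.card (B → Lam) := Nat.card_pos
    exact_mod_cast this
  obtain ⟨M, hM⟩ : ∃ M : B → Lam, GoodK nb M K (e / 2) a := by
    by_contra hcon
    push Not at hcon
    have : {M : B → Lam | ¬ GoodK nb M K (e / 2) a} = Set.univ := by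
      ext M
      simp only [Set.mem_ofPred_eq, Set.mem_univ, iff_true]
      exact hcon M
    rw [this, Set.ncard_univ] at hb
    linarith
  refine ⟨M, fun S hS Z hZ => ?_⟩
  have h1 := hM S hS Z hZ
  have hn : (0 : ℝ) < Nat.card B := by
    have : 0 < Nat.card B := Nat.card_pos
    exact_mod_cast this
  refine lt_of_le_of_lt h1 ?_
  nlinarith

end Pool.W1
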