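import Pool.Agent.Work.MP_727c87_w1.RCI

/-! # Part RC', block LG: Lemma G (helper66) -/

set_option autoImplicit false

namespace Pool.W1

namespace LG

open Finset

/-! ### Words -/

/-- rigid continuations of length `k` after the letter `s` -/
def ws : ℕ → Side → Finset (List Side)
  | 0, _ => {[]}
  | k + 1, s => (univ.filter (fun a => Far s a)).biUnion (fun a => (ws k a).image (List.cons a))

/-- rigid continuations of length `k` after the letter `s` which do not start with `e` -/
def ws' (k : ℕ) (s e : Side) : Finset (List Side) :=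
  match k with
  | 0 => {[]}
  | k + 1 => ((univ.filter (fun a => Far s a)).erase e).biUnion
      (fun a => (ws k a).image (List.cons a))

theorem mem_ws (k : ℕ) : ∀ (s : Side) (w : List Side), w ∈ ws k s → w.length = k ∧ Rigid (s :: w) := by
  induction k with
  | zero =>
    intro s w hw
    rw [ws, mem_singleton] at hw
    subst hw
    exact ⟨rfl, rigid_single s⟩
  | succ k ih =>
    intro s w hw
    rw [ws, mem_biUnion] at hw
    obtain ⟨a, ha, hw⟩ := hw
    rw [mem_image] at hw
    obtain ⟨v, hv, rfl⟩ := hw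
    rw [mem_filter] at ha
    obtain ⟨h1, h2⟩ := ih a v hv
    refine ⟨by simp [h1], ?_⟩
    rw [rigid_cons_cons]
    exact ⟨ha.2, h2⟩

theorem mem_ws' (k : ℕ) (s e : Side) (w : List Side) (hw : w ∈ ws' k s e) :
    w.length = k ∧ Rigid (s :: w) ∧ w.head? ≠ some e := by
  cases k with
  | zero =>
    rw [ws', mem_singleton] at hw
    subst hw
    exact ⟨rfl, rigid_single s, by simp⟩
  | succ k =>
    rw [ws', mem_biUnion] at hw
    obtain ⟨a, ha, hw⟩ := hw
    rw [mem_image] at hw
    obtain ⟨v, hv, rfl⟩ := hw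
    rw [mem_erase, mem_filter] at ha
    obtain ⟨h1, h2⟩ := mem_ws k a v hv
    refine ⟨by simp [h1], ?_, ?_⟩
    · rw [rigid_cons_cons]
      exact ⟨ha.2.2, h2⟩
    · intro h
      apply ha.1
      simpa using h

theorem card_far : ∀ s : Side, (univ.filter (fun a => Far s a)).card = 7 := by decide +kernel

theorem card_far_erase (s e : Side) :
    6 ≤ ((univ.filter (fun a => Far s a)).erase e).card := by
  have h := pred_card_le_card_erase (s := univ.filter (fun a => Far s a)) (a := e)
  rw [card_far] at h
  exact h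

theorem card_union (A : Finset Side) (f : Side → Finset (List Side)) (c : ℕ)
    (hf : ∀ a ∈ A, c ≤ (f a).card) :
    A.card * c ≤ (A.biUnion (fun a => (f a).image (List.cons a))).card := by
  rw [card_biUnion]
  · rw [← smul_eq_mul, ← sum_const]
    apply sum_le_sum
    intro a ha
    rw [card_image_of_injective _ (List.cons_injective)]
    exact hf a ha
  · intro a _ b _ hab
    refine disjoint_left.2 ?_
    intro w h1 h2
    rw [mem_image] at h1 h2
    obtain ⟨u, _, rfl⟩ := h1
    obtain ⟨v, _, h⟩ := h2
    exact hab (List.cons.inj h).1.symm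

theorem card_ws (k : ℕ) : ∀ s : Side, 6 ^ k ≤ (ws k s).card := by
  induction k with
  | zero => intro s; simp [ws]
  | succ k ih =>
    intro s
    rw [ws]
    refine le_trans ?_ (card_union _ (ws k) (6 ^ k) (fun a _ => ih a))
    rw [card_far, pow_succ]
    omega

theorem card_ws' (k : ℕ) (s e : Side) : 6 ^ k ≤ (ws' k s e).card := by
  cases k with
  | zero => simp [ws']
  | succ k =>
    rw [ws']
    refine le_trans ?_ (card_union _ (ws k) (6 ^ k) (fun a _ => card_ws k a))
    rw [pow_succ, mul_comm]
    exact Nat.mul_le_mul_right _ (card_far_erase s e)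

/-! ### Sets of words whose branching letters are not far from each other -/

set_option maxRecDepth 100000 in
theorem no_four : ∀ a b c d : Side, ¬ Far a b → ¬ Far a c → ¬ Far a d → ¬ Far b c → ¬ Far b d →
    ¬ Far c d → a = b ∨ a = c ∨ a = d ∨ b = c ∨ b = d ∨ c = d := by decide +kernel

theorem card_le_three (A : Finset Side) (h : ∀ a ∈ A, ∀ b ∈ A, a ≠ b → ¬ Far a b) :
    A.card ≤ 3 := by
  by_contra hc
  have hc' : 4 ≤ A.card := by omega
  obtain ⟨A', hA', hcard⟩ := exists_subset_card_eq hc'
  obtain ⟨a, b, c, d, hab, hac, had, hbc, hbd, hcd, rfl⟩ := card_eq_four.1 hcard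
  have ha : a ∈ A := hA' (by simp)
  have hb : b ∈ A := hA' (by simp)
  have hc : c ∈ A := hA' (by simp)
  have hd : d ∈ A := hA' (by simp)
  rcases no_four a b c d (h a ha b hb hab) (h a ha c hc hac) (h a ha d hd had)
    (h b hb c hc hbc) (h b hb d hd hbd) (h c hc d hd hcd) with e | e | e | e | e | e
  · exact hab e
  · exact hac e
  · exact had e
  · exact hbc e
  · exact hbd e
  · exact hcd e

theorem card_le_pow (k : ℕ) : ∀ R : Finset (List Side), (∀ r ∈ R, r.length = k) →
    (∀ (p : List Side) (a a' : Side) (t t' : List Side), p ++ a :: t ∈ R → p ++ a' :: t' ∈ R →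
      a ≠ a' → ¬ Far a a') → R.card ≤ 3 ^ k := by
  classical
  induction k with
  | zero =>
    intro R hl _
    rw [pow_zero, card_le_one]
    intro a ha b hb
    rw [List.length_eq_zero_iff.1 (hl a ha), List.length_eq_zero_iff.1 (hl b hb)]
  | succ k ih =>
    intro R hl hp
    set A : Finset Side := univ.filter (fun a => ∃ t, a :: t ∈ R) with hA
    have hA3 : A.card ≤ 3 := by
      apply card_le_three
      intro a ha b hb hab
      rw [hA, mem_filter] at ha hb
      obtain ⟨t, ht⟩ := ha.2
      obtain ⟨t', ht'⟩ := hb.2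
      exact hp [] a b t t' ht ht' hab
    have hsub : R ⊆ A.biUnion (fun a => (R.image List.tail).filter (fun t => a :: t ∈ R) |>.image
        (List.cons a)) := by
      intro r hr
      have h1 := hl r hr
      cases r with
      | nil => simp at h1
      | cons a t =>
        rw [mem_biUnion]
        refine ⟨a, ?_, ?_⟩
        · rw [hA, mem_filter]; exact ⟨mem_univ _, t, hr⟩
        · rw [mem_image]
          refine ⟨t, ?_, rfl⟩
          rw [mem_filter]
          exact ⟨mem_image.2 ⟨a :: t, hr, rfl⟩, hr⟩
    refine (card_le_card hsub).trans ?_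
    refine card_biUnion_le.trans ?_
    have : ∀ a ∈ A, (((R.image List.tail).filter (fun t => a :: t ∈ R)).image
        (List.cons a)).card ≤ 3 ^ k := by
      intro a _
      refine card_image_le.trans ?_
      apply ih
      · intro r hr
        rw [mem_filter] at hr
        have := hl _ hr.2
        simpa using this
      · intro p b b' t t' h1 h2
        rw [mem_filter] at h1 h2
        exact hp (a :: p) b b' t t' h1.2 h2.2
    refine (sum_le_sum this).trans ?_
    rw [sum_const, smul_eq_mul, pow_succ, mul_comm]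
    exact Nat.mul_le_mul_left _ hA3

/-! ### The geometric part -/

section Geo

variable {B : Type} {nb : B → Side → B} (M : B → Lam) {N L k : ℕ} {P : Fin N → State B}

/-- the word which leads from the chamber of `x` to the chamber of `x'` -/
theorem join_word (hI : Invol nb) {g g' : B} {s s' : Side} {u u' v : List Side} {a a' : Side}
    (h1 : Rigid (s :: (u ++ a :: v))) (h2 : Rigid (s' :: (u' ++ a' :: v))) (hf : Far a a')
    (he : walk nb g (u ++ a :: v) = walk nb g' (u' ++ a' :: v)) :
    Rigid (s :: (u ++ a :: a' :: u'.reverse)) ∧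
      walk nb g (u ++ a :: a' :: u'.reverse) = g' := by
  constructor
  · have e1 : s :: (u ++ a :: v) = ((s :: u) ++ [a]) ++ v := by simp
    have e2 : s' :: (u' ++ a' :: v) = ((s' :: u') ++ [a']) ++ v := by simp
    rw [e1] at h1
    rw [e2] at h2
    have h3 : Rigid ((s :: u) ++ [a]) := h1.left
    have h4 : Rigid ((s' :: u') ++ [a']) := h2.left
    have h5 : Rigid (u' ++ [a']) := by
      rw [List.cons_append] at h4
      exact h4.tail
    have h6 : Rigid (a' :: u'.reverse) := by
      have := rigid_reverse.2 h5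
      simpa using this
    have := rigid_glue' h3 h6 hf
    simpa using this
  · have e1 : walk nb g (u ++ [a]) = walk nb g' (u' ++ [a']) := by
      apply walk_inj hI v
      rw [← walk_append, ← walk_append]
      simpa using he
    have e3 : u ++ a :: a' :: u'.reverse = (u ++ [a]) ++ (u' ++ [a']).reverse := by simp
    rw [e3, walk_append, e1, walk_reverse hI]

/-- case (a): two words which end in the same chamber and branch at far letters -/
theorem not_far_aux (hI : Invol nb) (hR : InjR nb (L + 2 * k)) {X : Set (Fin N × ℕ)}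
    (hX : ∀ x ∈ X, x.2 < L ∧ ∀ j', j' ≠ x.1 → ¬ Sees nb M P L k x.1 x.2 j')
    {x x' : Fin N × ℕ} (hx : x ∈ X) (hx' : x' ∈ X) (hle : x.1 = x'.1 → x.2 ≤ x'.2)
    {u u' v : List Side} {a a' : Side} (hl : (u ++ a :: v).length = k)
    (hl' : (u' ++ a' :: v).length = k)
    (h1 : Rigid ((pos nb M (P x.1) x.2).2 :: (u ++ a :: v)))
    (h2 : Rigid ((pos nb M (P x'.1) x'.2).2 :: (u' ++ a' :: v)))
    (hh : (u ++ a :: v).head? ≠
      some (mt (M (pos nb M (P x.1) x.2).1) (pos nb M (P x.1) x.2).2))
    (he : walk nb (pos nb M (P x.1) x.2).1 (u ++ a :: v) =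
      walk nb (pos nb M (P x'.1) x'.2).1 (u' ++ a' :: v)) : ¬ Far a a' := by
  intro hf
  obtain ⟨hW1, hW2⟩ := join_word hI h1 h2 hf he
  have hWl : (u ++ a :: a' :: u'.reverse).length ≤ 2 * k := by
    simp only [List.length_append, List.length_cons, List.length_reverse] at hl hl' ⊢
    omega
  by_cases hj : x'.1 = x.1
  · -- the same piece
    have hle' := hle hj.symm
    obtain ⟨j, i⟩ := x
    obtain ⟨j', i'⟩ := x'
    simp only at hj hle' hW1 hW2 hh
    subst hj
    obtain ⟨t, rfl⟩ := Nat.exists_eq_add_of_le hle'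
    have hiL : i + t < L := (hX _ hx').1
    cases t with
    | zero =>
      refine walk_ne hR hW1.tail ?_ (hWl.trans (by omega)) hW2
      intro h0
      have := congrArg List.length h0
      simp at this
    | succ t =>
      have hE := rigid_exits nb M (pos nb M (P j') i) (t + 1)
      have hEw := walk_exits nb M (pos nb M (P j') i) (t + 1)
      rw [← pos_add] at hEw
      have := hR (pos nb M (P j') i).1 (u ++ a :: a' :: u'.reverse)
        (exits nb M (pos nb M (P j') i) (t + 1)) hW1.tail hE.tail (hWl.trans (by omega))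
        (by rw [length_exits]; omega) (by rw [hW2, hEw])
      rw [exits_succ'] at this
      apply hh
      have h3 := congrArg List.head? this
      rw [List.head?_cons] at h3
      rw [← h3]
      cases u with
      | nil => simp
      | cons b u => simp
  · exact (hX x hx).2 x'.1 hj ⟨_, x'.2, (hX x' hx').1, hWl, hW1, hW2⟩

theorem not_far (hI : Invol nb) (hR : InjR nb (L + 2 * k)) {X : Set (Fin N × ℕ)}
    (hX : ∀ x ∈ X, x.2 < L ∧ ∀ j', j' ≠ x.1 → ¬ Sees nb M P L k x.1 x.2 j')
    {x x' : Fin N × ℕ} (hx : x ∈ X) (hx' : x' ∈ X)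
    {u u' v : List Side} {a a' : Side} (hl : (u ++ a :: v).length = k)
    (hl' : (u' ++ a' :: v).length = k)
    (h1 : Rigid ((pos nb M (P x.1) x.2).2 :: (u ++ a :: v)))
    (h2 : Rigid ((pos nb M (P x'.1) x'.2).2 :: (u' ++ a' :: v)))
    (hh : (u ++ a :: v).head? ≠
      some (mt (M (pos nb M (P x.1) x.2).1) (pos nb M (P x.1) x.2).2))
    (hh' : (u' ++ a' :: v).head? ≠
      some (mt (M (pos nb M (P x'.1) x'.2).1) (pos nb M (P x'.1) x'.2).2))
    (he : walk nb (pos nb M (P x.1) x.2).1 (u ++ a :: v) =
      walk nb (pos nb M (P x'.1) x'.2).1 (u' ++ a' :: v)) : ¬ Far a a' := by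
  by_cases hle : x.1 = x'.1 → x.2 ≤ x'.2
  · exact not_far_aux M hI hR hX hx hx' hle hl hl' h1 h2 hh he
  · push Not at hle
    intro hf
    exact not_far_aux M hI hR hX hx' hx (fun _ => hle.2.le) hl' hl h2 h1 hh' he.symm
      (far_symm _ _ hf)

/-- case (c): the chamber determines the member of `X` -/
theorem eq_of_fst (hR : InjR nb (L + 2 * k)) {X : Set (Fin N × ℕ)}
    (hX : ∀ x ∈ X, x.2 < L ∧ ∀ j', j' ≠ x.1 → ¬ Sees nb M P L k x.1 x.2 j')
    {x x' : Fin N × ℕ} (hx : x ∈ X) (hx' : x' ∈ X)
    (he : (pos nb M (P x.1) x.2).1 = (pos nb M (P x'.1) x'.2).1) : x = x' := by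
  by_cases hj : x'.1 = x.1
  · obtain ⟨j, i⟩ := x
    obtain ⟨j', i'⟩ := x'
    simp only at hj he
    subst hj
    have h1 : i < L := (hX _ hx).1
    have h2 : i' < L := (hX _ hx').1
    rcases lt_trichotomy i i' with h | h | h
    · exact absurd he (pos_fst_ne M hR (P j') h (by omega))
    · rw [h]
    · exact absurd he.symm (pos_fst_ne M hR (P j') h (by omega))
  · exfalso
    refine (hX x hx).2 x'.1 hj ⟨[], x'.2, (hX x' hx').1, by simp, rigid_single _, ?_⟩
    rw [walk_nil]
    exact he

end Geo

end LG

open LG Finset in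
theorem blk_LG : Stmt_LG := by
  classical
  intro B _ nb M N L k P hI hR X hX
  have := Fintype.ofFinite B
  have hfin : X.Finite := by
    apply Set.Finite.subset (Set.Finite.prod (Set.finite_univ (α := Fin N)) (Set.finite_lt_nat L))
    intro x hx
    exact ⟨Set.mem_univ _, (hX x hx).1⟩
  set Xf := hfin.toFinset with hXf
  have hcard : X.ncard = Xf.card := Set.ncard_eq_toFinset_card X hfin
  have hmem : ∀ x, x ∈ Xf ↔ x ∈ X := fun x => hfin.mem_toFinset
  set st : Fin N × ℕ → State B := fun x => pos nb M (P x.1) x.2 with hst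
  set S : Finset (Σ _ : Fin N × ℕ, List Side) :=
    Xf.sigma (fun x => ws' k (st x).2 (mt (M (st x).1) (st x).2)) with hS
  have hScard : Xf.card * 6 ^ k ≤ S.card := by
    rw [hS, card_sigma, ← smul_eq_mul, ← sum_const]
    exact sum_le_sum (fun x _ => card_ws' k _ _)
  set f : (Σ _ : Fin N × ℕ, List Side) → B := fun p => walk nb (st p.1).1 p.2 with hf
  have hfib : ∀ y ∈ S.image f, (S.filter (fun p => f p = y)).card ≤ 3 ^ k := by
    intro y _
    set F := S.filter (fun p => f p = y) with hF
    have hFm : ∀ p ∈ F, p.1 ∈ X ∧ p.2.length = k ∧ Rigid ((st p.1).2 :: p.2) ∧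
        p.2.head? ≠ some (mt (M (st p.1).1) (st p.1).2) ∧ walk nb (st p.1).1 p.2 = y := by
      intro p hp
      rw [hF, mem_filter, hS, mem_sigma] at hp
      obtain ⟨h1, h2, h3⟩ := mem_ws' _ _ _ _ hp.1.2
      exact ⟨(hmem _).1 hp.1.1, h1, h2, h3, hp.2⟩
    have hinj : Set.InjOn (fun p : (Σ _ : Fin N × ℕ, List Side) => p.2.reverse) (F : Set _) := by
      intro p hp q hq hpq
      have hpq' : p.2 = q.2 := List.reverse_injective hpq
      obtain ⟨p1, _, _, _, p5⟩ := hFm p hp
      obtain ⟨q1, _, _, _, q5⟩ := hFm q hq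
      rw [hpq', ← q5] at p5
      have := walk_inj hI q.2 p5
      have h1 : p.1 = q.1 := eq_of_fst M hR hX p1 q1 this
      obtain ⟨px, pw⟩ := p
      obtain ⟨qx, qw⟩ := q
      simp only at h1 hpq'
      rw [h1, hpq']
    rw [← card_image_of_injOn hinj]
    apply card_le_pow
    · intro r hr
      rw [mem_image] at hr
      obtain ⟨p, hp, rfl⟩ := hr
      rw [List.length_reverse]
      exact (hFm p hp).2.1
    · intro v a a' t t' h1 h2 _
      rw [mem_image] at h1 h2
      obtain ⟨p, hp, hpe⟩ := h1
      obtain ⟨q, hq, hqe⟩ := h2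
      have ep : p.2 = t.reverse ++ a :: v.reverse := by
        have := congrArg List.reverse hpe
        rw [List.reverse_reverse] at this
        rw [this]
        simp
      have eq' : q.2 = t'.reverse ++ a' :: v.reverse := by
        have := congrArg List.reverse hqe
        rw [List.reverse_reverse] at this
        rw [this]
        simp
      obtain ⟨p1, p2, p3, p4, p5⟩ := hFm p hp
      obtain ⟨q1, q2, q3, q4, q5⟩ := hFm q hq
      rw [ep] at p2 p3 p4 p5
      rw [eq'] at q2 q3 q4 q5
      exact not_far M hI hR hX p1 q1 p2 q2 p3 q3 p4 q4 (p5.trans q5.symm)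
  have h1 := card_le_mul_card_image S (3 ^ k) hfib
  have h2 : (S.image f).card ≤ Nat.card B := by
    rw [Nat.card_eq_fintype_card]
    exact card_le_univ _
  rw [hcard]
  exact (hScard.trans h1).trans (Nat.mul_le_mul_left _ h2)

end Pool.W1
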