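import Pool.Agent.Work.MP_727c87_w1.RCI

/-! # MP_727c87_gt, block RC_NUM1 (helper87): `b c^b → 0` -/

namespace Pool.W1

theorem blk_NUM1 : Stmt_NUM1 := by
  intro A c hc0 hc1
  have h := tendsto_self_mul_const_pow_of_lt_one hc0 hc1
  have h2 : Filter.Tendsto (fun n : ℕ => A * ((n : ℝ) * c ^ n)) Filter.atTop (nhds (A * 0)) :=
    h.const_mul A
  rw [mul_zero] at h2
  have h3 : ∀ᶠ n : ℕ in Filter.atTop, A * ((n : ℝ) * c ^ n) < 1 / 2 :=
    h2.eventually (gt_mem_nhds (by norm_num))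
  obtain ⟨b, hb1, hb2⟩ := (h3.and (Filter.eventually_ge_atTop 1)).exists
  exact ⟨b, hb2, by rw [mul_assoc]; exact hb1.le⟩

end Pool.W1
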