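import Pool.Agent.Work.MP_727c87_w1.RCI

/-! # MP_727c87_gt, block NUM2 -/

namespace Pool.W1

theorem blk_NUM2 : Stmt_NUM2 := by
  intro a N hN
  have h1 : (Nat.choose a N : ℝ) ≤ (a : ℝ) ^ N / (N.factorial : ℝ) :=
    Nat.choose_le_pow_div N a
  refine h1.trans ?_
  have hNR : (0 : ℝ) < N := by exact_mod_cast hN
  have hf : (0 : ℝ) < (N.factorial : ℝ) := by exact_mod_cast N.factorial_pos
  have h2 : (N : ℝ) ^ N / (N.factorial : ℝ) ≤ Real.exp N :=
    Real.pow_div_factorial_le_exp (N : ℝ) hNR.le N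
  have h3 : Real.exp N ≤ 3 ^ N := by
    have : Real.exp (N : ℝ) = Real.exp 1 ^ N := by
      rw [← Real.exp_nat_mul]
      simp
    rw [this]
    apply pow_le_pow_left₀ (Real.exp_pos 1).le
    have := Real.exp_one_lt_d9
    linarith
  have h4 : (N : ℝ) ^ N ≤ 3 ^ N * (N.factorial : ℝ) := by
    rw [← div_le_iff₀ hf]
    exact h2.trans h3
  rw [div_pow, mul_pow, div_le_div_iff₀ hf (by positivity)]
  have ha : (0 : ℝ) ≤ (a : ℝ) ^ N := by positivity
  nlinarith [mul_le_mul_of_nonneg_left h4 ha]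

end Pool.W1
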