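import Pool.Agent.Work.MP_727c87_w1.RCI

/-! # MP_727c87_gt, part RC', block RC_RC: union bound and choice of the parameters -/

namespace Pool.W1

open Classical in
theorem rc_union_ncard {Ω ι : Type} [Finite Ω] (s : Finset ι) (A : Set Ω) (f : ι → Set Ω)
    (h : ∀ x ∈ A, ∃ i ∈ s, x ∈ f i) (K : ℝ) (hK : ∀ i ∈ s, ((f i).ncard : ℝ) ≤ K) :
    (A.ncard : ℝ) ≤ s.card * K := by
  have h1 : A.ncard ≤ ∑ i ∈ s, (f i).ncard := by
    have hsub : A ⊆ ⋃ i ∈ s, f i := by
      intro x hx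
      obtain ⟨i, hi, hxi⟩ := h x hx
      exact Set.mem_biUnion (by exact hi) hxi
    refine (Set.ncard_le_ncard hsub (Set.toFinite _)).trans ?_
    exact s.set_ncard_biUnion_le f
  calc (A.ncard : ℝ) ≤ ((∑ i ∈ s, (f i).ncard : ℕ) : ℝ) := by exact_mod_cast h1
    _ = ∑ i ∈ s, ((f i).ncard : ℝ) := by push_cast; rfl
    _ ≤ ∑ _i ∈ s, K := Finset.sum_le_sum hK
    _ = s.card * K := by rw [Finset.sum_const, nsmul_eq_mul]

theorem NoConf.comp {B : Type} {nb : B → Side → B} {M : B → Lam} {N : ℕ} {P : Fin N → State B}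
    {L : ℕ} (h : NoConf nb M P L) (f : Fin N → Fin N) (hf : Function.Injective f) :
    NoConf nb M (P ∘ f) L := by
  intro j j' i i' hi hi' hne
  apply h (f j) (f j') i i' hi hi'
  intro e
  apply hne
  rw [Prod.mk.injEq] at e ⊢
  exact ⟨hf e.1, e.2⟩

open Classical in
/-- enumeration of a finset with `N` elements -/
noncomputable def rcEnum {B : Type} [Nonempty B] (N : ℕ) (Q : Finset (State B)) (i : Fin N) : State B :=
  if h : Q.card = N then ((Finset.equivFinOfCardEq h).symm i : State B)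
  else Classical.choice (inferInstanceAs (Nonempty (B × ZMod 12)))

theorem rcEnum_noConf {B : Type} [Nonempty B] {nb : B → Side → B} {M : B → Lam} {N L : ℕ}
    {P : Fin N → State B} (h : NoConf nb M P L)
    (Q : Finset (State B)) (hQ : ∀ x, x ∈ Q ↔ ∃ i, P i = x) (hc : Q.card = N) :
    NoConf nb M (rcEnum N Q) L := by
  have hmem : ∀ i : Fin N, ∃ i', P i' = rcEnum N Q i := by
    intro i
    apply (hQ _).1
    unfold rcEnum
    rw [dif_pos hc]
    exact ((Finset.equivFinOfCardEq hc).symm i).2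
  choose f hf using hmem
  have hinj : Function.Injective f := by
    intro i i' e
    have h1 : rcEnum N Q i = rcEnum N Q i' := by rw [← hf, ← hf, e]
    unfold rcEnum at h1
    rw [dif_pos hc, dif_pos hc] at h1
    exact (Finset.equivFinOfCardEq hc).symm.injective (Subtype.ext h1)
  have h2 := h.comp f hinj
  have h3 : P ∘ f = rcEnum N Q := by
    funext i
    exact hf i
  rwa [h3] at h2

/-- the sets bounded by CNT -/
def RcA {B : Type} (nb : B → Side → B) (N k b r c : ℕ) (P : Fin N → State B) : Set (B → Lam) :=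
  {M : B → Lam | NoConf nb M P ((2 * k + 1) * (b + 1)) ∧
        c ≤ {x : Fin N × Fin b | ∃ j' < x.1,
          Sees nb M P ((2 * k + 1) * (b + 1)) k x.1 (r + (2 * k + 1) * x.2.1) j'}.ncard}

open Classical in
/-- the combinatorial half: the bad `M` are covered by few sets -/
theorem rc_cover (DET : Stmt_DET) (CUT : Stmt_CUT) {B : Type} [Finite B] [Nonempty B]
    (nb : B → Side → B) (N k b b' : ℕ) (hI : Invol nb)
    (hR : InjR nb ((2 * k + 1) * (b + 1) + 2 * k)) (hb : 3 ≤ b) (hb' : b + 1 = 4 * b')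
    (h4 : 4 * Nat.card B ≤ 2 ^ k * (N * ((2 * k + 1) * (b + 1))))
    (e a : ℝ)
    (ha : ∀ s c : ℕ, (s : ℝ) ≤ a * Nat.card B → e * Nat.card B < c →
      s * ((2 * k + 1) * (b + 1)) + 8 * ((2 * k + 1) * (b + 1)) * N ≤ c)
    (M : B → Lam) (hM : ¬ RCgood nb M e a) :
    ∃ Q : Finset (State B), Q.card = N ∧ ∃ r < 2 * k + 1,
      M ∈ RcA nb N k b r (N * b') (rcEnum N Q) ∨
      M ∈ RcA nb N k b r (N * b') (rcEnum N Q ∘ Fin.rev) := by
  unfold RCgood at hM
  push Not at hM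
  obtain ⟨ell, h1, h2, h3⟩ := hM
  have hL : 0 < (2 * k + 1) * (b + 1) := by positivity
  obtain ⟨P, hP, hNC⟩ := CUT B nb M N ((2 * k + 1) * (b + 1)) ell hI (hR.mono (Nat.le_add_right _ _))
    hL h2 (ha _ _ h1 h3)
  let Q : Finset (State B) := Finset.univ.image P
  have hQ : ∀ x, x ∈ Q ↔ ∃ i, P i = x := by
    intro x
    simp [Q]
  have hc : Q.card = N := by
    simp [Q, Finset.card_image_of_injective _ hP]
  have hE := rcEnum_noConf hNC Q hQ hc
  obtain ⟨r, hr, h5⟩ := DET B nb M N k b (rcEnum N Q) hI hR hb h4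
  refine ⟨Q, hc, r, hr, ?_⟩
  rcases h5 with h5 | h5
  · left
    refine ⟨hE, ?_⟩
    have h6 : N * (b + 1) = 4 * (N * b') := by rw [hb']; ring
    rw [h6] at h5
    exact Nat.le_of_mul_le_mul_left h5 (by norm_num)
  · right
    refine ⟨hE.comp _ Fin.rev_injective, ?_⟩
    have h6 : N * (b + 1) = 4 * (N * b') := by rw [hb']; ring
    rw [h6] at h5
    exact Nat.le_of_mul_le_mul_left h5 (by norm_num)

open Classical in
theorem rc_count (CNT : Stmt_CNT) (DET : Stmt_DET) (CUT : Stmt_CUT) (NUM2 : Stmt_NUM2)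
    {B : Type} [Finite B] [Nonempty B]
    (nb : B → Side → B) (N k b b' : ℕ) (hN : 1 ≤ N) (hI : Invol nb)
    (hR : InjR nb ((2 * k + 1) * (b + 1) + 2 * k)) (hb : 3 ≤ b) (hb' : b + 1 = 4 * b')
    (h4 : 4 * Nat.card B ≤ 2 ^ k * (N * ((2 * k + 1) * (b + 1))))
    (e a : ℝ)
    (ha : ∀ s c : ℕ, (s : ℝ) ≤ a * Nat.card B → e * Nat.card B < c →
      s * ((2 * k + 1) * (b + 1)) + 8 * ((2 * k + 1) * (b + 1)) * N ≤ c) :
    ({M : B → Lam | ¬ RCgood nb M e a}.ncard : ℝ) ≤
      (2 * (2 * k + 1)) * (36 * Nat.card B / N * (1 - 1 / (24 : ℝ) ^ (2 * k + 1)) ^ b') ^ N *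
        (Nat.card (B → Lam) : ℝ) := by
  cases nonempty_fintype B
  set c0 : ℝ := 1 - 1 / (24 : ℝ) ^ (2 * k + 1) with hc0
  have hc0nn : 0 ≤ c0 := by
    have : (1 : ℝ) / 24 ^ (2 * k + 1) ≤ 1 := by
      rw [div_le_one (by positivity)]
      exact one_le_pow₀ (by norm_num)
    linarith
  let s : Finset (Finset (State B) × (ℕ × Bool)) :=
    (Finset.powersetCard N (Finset.univ : Finset (State B))) ×ˢ
      ((Finset.range (2 * k + 1)) ×ˢ (Finset.univ : Finset Bool))
  let f : Finset (State B) × (ℕ × Bool) → Set (B → Lam) := fun i =>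
    if i.2.2 then RcA nb N k b i.2.1 (N * b') (rcEnum N i.1)
    else RcA nb N k b i.2.1 (N * b') (rcEnum N i.1 ∘ Fin.rev)
  have h1 := rc_union_ncard s {M : B → Lam | ¬ RCgood nb M e a} f (by
    intro M hM
    obtain ⟨Q, hQ, r, hr, h⟩ := rc_cover DET CUT nb N k b b' hI hR hb hb' h4 e a ha M hM
    rcases h with h | h
    · refine ⟨(Q, (r, true)), ?_, ?_⟩
      · simp [s, Finset.mem_powersetCard, hQ, hr]
      · simp only [f, if_true]
        exact h
    · refine ⟨(Q, (r, false)), ?_, ?_⟩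
      · simp [s, Finset.mem_powersetCard, hQ, hr]
      · simp only [f]
        exact h) (c0 ^ (N * b') * (Nat.card (B → Lam) : ℝ)) (by
    rintro ⟨Q, r, d⟩ hi
    have hr : r < 2 * k + 1 := by
      have := hi
      simp only [s, Finset.mem_product, Finset.mem_range] at this
      exact this.2.1
    cases d
    · exact CNT B nb N k b r (N * b') (rcEnum N Q ∘ Fin.rev) hI hR hr
    · exact CNT B nb N k b r (N * b') (rcEnum N Q) hI hR hr)
  have hcard : (s.card : ℝ) ≤ (36 * Nat.card B / N) ^ N * (2 * (2 * k + 1)) := by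
    have h2 : s.card = Nat.choose (12 * Nat.card B) N * ((2 * k + 1) * 2) := by
      simp only [s, Finset.card_product, Finset.card_powersetCard, Finset.card_range,
        Finset.card_univ, Fintype.card_bool]
      congr 2
      rw [Nat.card_eq_fintype_card]
      simp only [Fintype.card_prod, ZMod.card]
      ring
    rw [h2]
    push_cast
    have h3 := NUM2 (12 * Nat.card B) N hN
    push_cast at h3
    have h5 : (3 * (12 * (Nat.card B : ℝ)) / N) = 36 * Nat.card B / N := by ring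
    rw [h5] at h3
    have h6 : (0 : ℝ) ≤ (2 * (k : ℝ) + 1) * 2 := by positivity
    calc ((12 * Nat.card B).choose N : ℝ) * ((2 * (k : ℝ) + 1) * 2)
        ≤ (36 * Nat.card B / N) ^ N * ((2 * (k : ℝ) + 1) * 2) :=
          mul_le_mul_of_nonneg_right h3 h6
      _ = (36 * Nat.card B / N) ^ N * (2 * (2 * k + 1)) := by ring
  calc ({M : B → Lam | ¬ RCgood nb M e a}.ncard : ℝ)
      ≤ s.card * (c0 ^ (N * b') * (Nat.card (B → Lam) : ℝ)) := h1
    _ ≤ ((36 * Nat.card B / N) ^ N * (2 * (2 * k + 1))) *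
        (c0 ^ (N * b') * (Nat.card (B → Lam) : ℝ)) :=
        mul_le_mul_of_nonneg_right hcard (by positivity)
    _ = (2 * (2 * k + 1)) * (36 * Nat.card B / N * c0 ^ b') ^ N *
        (Nat.card (B → Lam) : ℝ) := by
        rw [mul_pow, ← pow_mul, Nat.mul_comm b' N]
        ring

theorem blk_RC (CNT : Stmt_CNT) (DET : Stmt_DET) (CUT : Stmt_CUT) (NUM1 : Stmt_NUM1)
    (NUM2 : Stmt_NUM2) : Stmt_RC := by
  intro e he
  obtain ⟨k, hk⟩ : ∃ k : ℕ, 128 / e < 2 ^ k := pow_unbounded_of_one_lt _ (by norm_num)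
  have hk' : 128 ≤ 2 ^ k * e := by
    rw [div_lt_iff₀ he] at hk
    exact hk.le
  set c0 : ℝ := 1 - 1 / (24 : ℝ) ^ (2 * k + 1) with hc0
  have hc0nn : 0 ≤ c0 := by
    have : (1 : ℝ) / 24 ^ (2 * k + 1) ≤ 1 := by
      rw [div_le_one (by positivity)]
      exact one_le_pow₀ (by norm_num)
    linarith
  have hc01 : c0 < 1 := by
    have : (0 : ℝ) < 1 / 24 ^ (2 * k + 1) := by positivity
    linarith
  obtain ⟨b', hb1, hb2⟩ := NUM1 (36 * 32 * 4 * (2 * k + 1) / e) c0 hc0nn hc01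
  obtain ⟨b, hb'⟩ : ∃ b, b + 1 = 4 * b' := ⟨4 * b' - 1, by omega⟩
  have hb : 3 ≤ b := by omega
  set L : ℕ := (2 * k + 1) * (b + 1) with hL
  have hLpos : (0 : ℝ) < L := by
    rw [hL]; positivity
  have hLr : (L : ℝ) = 4 * (2 * k + 1) * b' := by
    rw [hL, hb']; push_cast; ring
  refine ⟨e / (2 * L), by positivity, ?_⟩
  intro d hd
  obtain ⟨N1, hN1⟩ : ∃ N1 : ℕ, ((1 : ℝ) / 2) ^ N1 < d / (2 * (2 * k + 1)) :=
    exists_pow_lt_of_lt_one (by positivity) (by norm_num)
  obtain ⟨n0, hn0⟩ := exists_nat_ge ((N1 + 2) * (16 * L) / e)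
  refine ⟨max (L + 2 * k) n0, ?_⟩
  intro B _ _ nb hI hR
  cases nonempty_fintype B
  have hcardB : n0 < Nat.card B := by
    rw [Nat.card_eq_fintype_card]
    exact lt_of_le_of_lt (le_max_right _ _) (card_gt hR)
  set n : ℝ := (Nat.card B : ℝ) with hn
  have hnn0 : (n0 : ℝ) ≤ n := by
    rw [hn]
    exact_mod_cast hcardB.le
  have hnbig : (N1 + 2) * (16 * L) ≤ e * n := by
    have := hn0.trans hnn0
    rwa [div_le_iff₀ he, mul_comm n e] at this
  have hnpos : 0 < n := by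
    have h1 : (0 : ℝ) < (N1 + 2) * (16 * L) := by positivity
    by_contra hcon
    push Not at hcon
    nlinarith
  set N : ℕ := ⌊e * n / (16 * L)⌋₊ with hNdef
  have hNge : (N1 : ℝ) + 1 ≤ N := by
    have h1 : (N1 : ℝ) + 2 ≤ e * n / (16 * L) := by
      rw [le_div_iff₀ (by positivity)]
      exact hnbig
    have h2 : e * n / (16 * L) < N + 1 := Nat.lt_floor_add_one _
    linarith
  have hN1' : N1 ≤ N := by
    have : (N1 : ℝ) ≤ N := by linarith
    exact_mod_cast this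
  have hNone : 1 ≤ N := by
    have : (1 : ℝ) ≤ N := by
      have : (0 : ℝ) ≤ N1 := Nat.cast_nonneg _
      linarith
    exact_mod_cast this
  have hNle : (N : ℝ) * (16 * L) ≤ e * n := by
    have h1 : (N : ℝ) ≤ e * n / (16 * L) := Nat.floor_le (by positivity)
    rwa [le_div_iff₀ (by positivity)] at h1
  have hNL : e * n / 32 ≤ N * L := by
    have h2 : e * n / (16 * L) < N + 1 := Nat.lt_floor_add_one _
    rw [div_lt_iff₀ (by positivity)] at h2
    have h3 : (0 : ℝ) ≤ N1 := Nat.cast_nonneg _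
    nlinarith
  have hR' : InjR nb ((2 * k + 1) * (b + 1) + 2 * k) := hR.mono (le_max_left _ _)
  have h4 : 4 * Nat.card B ≤ 2 ^ k * (N * ((2 * k + 1) * (b + 1))) := by
    have h5 : 4 * n ≤ 2 ^ k * (N * L) := by
      have h6 : (0 : ℝ) < 2 ^ k := by positivity
      have h7 : 2 ^ k * (e * n / 32) ≤ 2 ^ k * (N * L) := mul_le_mul_of_nonneg_left hNL h6.le
      nlinarith
    have h6 : ((4 * Nat.card B : ℕ) : ℝ) ≤ ((2 ^ k * (N * L) : ℕ) : ℝ) := by
      push_cast
      exact h5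
    exact_mod_cast h6
  have ha : ∀ s c : ℕ, (s : ℝ) ≤ e / (2 * L) * Nat.card B → e * Nat.card B < c →
      s * ((2 * k + 1) * (b + 1)) + 8 * ((2 * k + 1) * (b + 1)) * N ≤ c := by
    intro s c hs hc
    have h5 : (s : ℝ) * L ≤ e * n / 2 := by
      have := mul_le_mul_of_nonneg_right hs hLpos.le
      have h6 : e / (2 * L) * Nat.card B * L = e * n / 2 := by
        rw [hn]
        field_simp
      linarith
    have h7 : (s : ℝ) * L + 8 * L * N ≤ c := by
      have : e * n < c := hc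
      nlinarith
    have h8 : ((s * L + 8 * L * N : ℕ) : ℝ) ≤ (c : ℝ) := by
      push_cast
      exact h7
    exact_mod_cast h8
  have hfin := rc_count CNT DET CUT NUM2 nb N k b b' hNone hI hR' hb hb' h4 e (e / (2 * L)) ha
  refine hfin.trans ?_
  have hbase : 36 * n / N * c0 ^ b' ≤ 1 / 2 := by
    have h5 : 36 * n / N ≤ 36 * 32 * 4 * (2 * k + 1) / e * b' := by
      have hNpos : (0 : ℝ) < N := by
        have : (1 : ℝ) ≤ N := by exact_mod_cast hNone
        linarith
      rw [div_le_iff₀ hNpos]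
      have h6 : 36 * 32 * 4 * (2 * (k : ℝ) + 1) / e * b' * N = 36 * 32 * (N * L) / e := by
        rw [hLr]; ring
      rw [h6, le_div_iff₀ he]
      nlinarith
    calc 36 * n / N * c0 ^ b' ≤ (36 * 32 * 4 * (2 * k + 1) / e * b') * c0 ^ b' :=
          mul_le_mul_of_nonneg_right h5 (by positivity)
      _ ≤ 1 / 2 := hb2
  have hpow : (36 * n / N * c0 ^ b') ^ N ≤ (1 / 2) ^ N1 := by
    calc (36 * n / N * c0 ^ b') ^ N ≤ (1 / 2) ^ N :=
          pow_le_pow_left₀ (by positivity) hbase N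
      _ ≤ (1 / 2) ^ N1 := pow_le_pow_of_le_one (by norm_num) (by norm_num) hN1'
  have h9 : (2 * (2 * (k : ℝ) + 1)) * (36 * n / N * c0 ^ b') ^ N ≤ d := by
    have h10 : (0 : ℝ) < 2 * (2 * (k : ℝ) + 1) := by positivity
    calc (2 * (2 * (k : ℝ) + 1)) * (36 * n / N * c0 ^ b') ^ N
        ≤ (2 * (2 * (k : ℝ) + 1)) * (1 / 2) ^ N1 := mul_le_mul_of_nonneg_left hpow h10.le
      _ ≤ (2 * (2 * (k : ℝ) + 1)) * (d / (2 * (2 * k + 1))) :=
          mul_le_mul_of_nonneg_left hN1.le h10.le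
      _ = d := by field_simp
  exact mul_le_mul_of_nonneg_right h9 (Nat.cast_nonneg _)

end Pool.W1
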