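import Pool.Agent.Work.MP_727c87_w1.RCI

/-! # Part RC', block STEP: one eligible block (helper66) -/

set_option autoImplicit false

namespace Pool.W1

namespace STEP

open Finset

set_option maxRecDepth 100000 in
theorem sep_swap2 : ∀ a a' b b' : Side, Sep a a' b b' → Sep a a' b' b := by decide +kernel

section

variable {B : Type} {nb : B → Side → B} {N L k : ℕ} {P : Fin N → State B} {j : Fin N} {i0 : ℕ}
  {M : B → Lam}

/-- a state is processed at the moment `(j, i0)` -/
def Proc (nb : B → Side → B) (M : B → Lam) (P : Fin N → State B) (L : ℕ) (j : Fin N) (i0 : ℕ)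
    (x : State B) : Prop :=
  ∃ (j' : Fin N) (i' : ℕ), i' < bnd L j i0 j' ∧ x = pos nb M (P j') i'

/-- the exits of the processed states are known -/
theorem agree_exit {M' : B → Lam} (h : Agree nb P L j i0 M M') {x : State B}
    (hx : Proc nb M P L j i0 x) : mt (M' x.1) x.2 = mt (M x.1) x.2 := by
  obtain ⟨j', i', hi, rfl⟩ := hx
  have h1 := h j' i' hi.le
  have h2 := h j' (i' + 1) hi
  have e1 := pos_succ_snd nb M (P j') i'
  have e2 := pos_succ_snd nb M' (P j') i'
  rw [← h1] at e2
  rw [← e1, ← e2, h2]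

/-- the converse: if the exits of the processed states are kept then the history is kept -/
theorem agree_of_exit {M' : B → Lam}
    (h : ∀ x, Proc nb M P L j i0 x → mt (M' x.1) x.2 = mt (M x.1) x.2) :
    Agree nb P L j i0 M M' := by
  intro j' i
  induction i with
  | zero => intro _; rfl
  | succ i ih =>
    intro hi
    have h1 := ih (by omega)
    have h2 := h (pos nb M (P j') i) ⟨j', i, hi, rfl⟩
    rw [pos_succ, pos_succ, ← h1]
    unfold step
    rw [h2]

end

end STEP

open STEP Finset in
set_option maxHeartbeats 4000000 in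
theorem blk_STEP : Stmt_STEP := by
  classical
  intro B _ nb N L k P j i0 M hI hR hi0 hAl hSees
  have := Fintype.ofFinite B
  set g : B := (pos nb M (P j) i0).1 with hg
  set s : Side := (pos nb M (P j) i0).2 with hs
  -- the minimal word
  have hex : ∃ n, ∃ w : List Side, w.length = n ∧ w.length ≤ 2 * k ∧ Rigid (s :: w) ∧
      ∃ j' < j, ∃ i' < L, walk nb g w = (pos nb M (P j') i').1 := by
    obtain ⟨j', hj', w, i', hi', hl, hr, hw⟩ := hSees
    exact ⟨w.length, w, rfl, hl, hr, j', hj', i', hi', hw⟩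
  obtain ⟨w, hwn, hwl, hwr, j1, hj1, i1, hi1, hw1⟩ := Nat.find_spec hex
  have hmin : ∀ v : List Side, v.length < w.length → Rigid (s :: v) →
      ∀ j' < j, ∀ i' < L, walk nb g v ≠ (pos nb M (P j') i').1 := by
    intro v hv hvr j' hj' i' hi' he
    refine Nat.find_min hex (m := v.length) (hwn ▸ hv) ⟨v, rfl, ?_, hvr, j', hj', i', hi', he⟩
    omega
  clear hwn
  set r := w.length with hr
  set z : ℕ → B := fun i => walk nb g (w.take i) with hz
  set a : ℕ → Side := fun i => (s :: w).getD i s with ha
  have hz0 : z 0 = g := rfl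
  have ha0 : a 0 = s := rfl
  have hzr : z r = walk nb g w := by
    rw [hz]
    simp only [hr, List.take_length]
  have hrt : ∀ i, Rigid (s :: w.take i) := by
    intro i
    have : s :: w = (s :: w.take i) ++ w.drop i := by simp
    rw [this] at hwr
    exact hwr.left
  have hzs : ∀ i < r, z (i + 1) = nb (z i) (a (i + 1)) := by
    intro i hi
    rw [hz, ha]
    simp only [List.getD_cons_succ]
    rw [List.take_succ_eq_append_getElem hi, walk_append, walk_cons, walk_nil,
      List.getD_eq_getElem _ _ hi]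
  have hfar : ∀ i < r, Far (a i) (a (i + 1)) := by
    intro i hi
    have h1 : i < (s :: w).length := by simp; omega
    have h2 : i + 1 < (s :: w).length := by simp; omega
    have := (List.isChain_iff_getElem.1 hwr) i h2
    rw [ha]
    simp only [List.getD_eq_getElem _ _ h1, List.getD_eq_getElem _ _ h2]
    exact this
  -- the chambers are different
  have F3 : ∀ i i', i < i' → i' ≤ r → z i ≠ z i' := by
    intro i i' h1 h2 he
    have h3 : (w.take i).length = i := by rw [List.length_take]; omega
    have h4 : (w.take i').length = i' := by rw [List.length_take]; omega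
    have := hR g (w.take i) (w.take i') (hrt i).tail (hrt i').tail (by omega) (by omega) he
    rw [this] at h3
    omega
  have F3' : ∀ i ≤ r, ∀ i' ≤ r, z i = z i' → i = i' := by
    intro i h1 i' h2 he
    rcases lt_trichotomy i i' with h | h | h
    · exact absurd he (F3 i i' h h2)
    · exact h
    · exact absurd he.symm (F3 i' i h h1)
  -- no processed state of the piece `j`
  have F2 : ∀ i ≤ r, ∀ i1 < i0, (pos nb M (P j) i1).1 ≠ z i := by
    intro i hi i1 hi1 he
    obtain ⟨t, rfl⟩ := Nat.exists_eq_add_of_lt hi1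
    have e1 : pos nb M (P j) (i1 + t + 1) = pos nb M (pos nb M (P j) i1) (t + 1) := by
      rw [← pos_add]; rfl
    have h1 : Rigid ((pos nb M (pos nb M (P j) i1) (t + 1)).2 :: w.take i) := by
      rw [← e1]; exact hrt i
    have h2 := rigid_exits_append nb M (pos nb M (P j) i1) (t + 1) h1
    refine walk_ne hR h2.tail ?_ ?_ (g := (pos nb M (P j) i1).1) ?_
    · intro h0
      have := congrArg List.length h0
      simp at this
    · rw [List.length_append, length_exits, List.length_take]
      omega
    · rw [walk_append, walk_exits, ← e1]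
      exact he.symm
  -- the processed states avoid the chambers `z i`, `i < r`
  have F1 : ∀ i < r, ∀ x, Proc nb M P L j i0 x → x.1 ≠ z i := by
    rintro i hi x ⟨j', i', hi', rfl⟩ he
    unfold bnd at hi'
    split_ifs at hi' with c1 c2
    · refine hmin (w.take i) ?_ (hrt i) j' c1 i' hi' he.symm
      rw [List.length_take]; omega
    · subst c2
      exact F2 i hi.le i' hi' he
    · omega
  -- the known sides in the last chamber
  set I : Finset Side := univ.filter (fun t => ∃ x, Proc nb M P L j i0 x ∧ x.1 = z r ∧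
    (t = x.2 ∨ t = mt (M (z r)) x.2)) with hIdef
  have hmemI : ∀ t, t ∈ I ↔ ∃ x, Proc nb M P L j i0 x ∧ x.1 = z r ∧
    (t = x.2 ∨ t = mt (M (z r)) x.2) := by
    intro t
    rw [hIdef, mem_filter]
    exact ⟨fun h => h.2, fun h => ⟨mem_univ _, h⟩⟩
  have hIne : I.Nonempty := by
    refine ⟨(pos nb M (P j1) i1).2, (hmemI _).2 ⟨_, ⟨j1, i1, ?_, rfl⟩, ?_, Or.inl rfl⟩⟩
    · unfold bnd; rw [if_pos hj1]; exact hi1
    · rw [hzr, hw1]
  have hIcl : ∀ t ∈ I, mt (M (z r)) t ∈ I := by
    intro t ht
    obtain ⟨x, hx, hx1, h⟩ := (hmemI t).1 ht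
    refine (hmemI _).2 ⟨x, hx, hx1, ?_⟩
    rcases h with h | h
    · right; rw [h]
    · left; rw [h, mt_mt]
  have hInc : ∀ t ∈ I, ∀ t' ∈ I, ¬ Sep t (mt (M (z r)) t) t' (mt (M (z r)) t') := by
    intro t ht t' ht' hsep
    obtain ⟨x, ⟨jx, ix, hix, hx⟩, hx1, h⟩ := (hmemI t).1 ht
    obtain ⟨y, ⟨jy, iy, hiy, hy⟩, hy1, h'⟩ := (hmemI t').1 ht'
    have h1 : Sep x.2 (mt (M (z r)) x.2) t' (mt (M (z r)) t') := by
      rcases h with h | h
      · rw [h] at hsep; exact hsep
      · rw [h, mt_mt] at hsep
        exact sep_swap _ _ _ _ hsep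
    have h2 : Sep x.2 (mt (M (z r)) x.2) y.2 (mt (M (z r)) y.2) := by
      rcases h' with h' | h'
      · rw [h'] at h1; exact h1
      · rw [h', mt_mt] at h1
        exact sep_swap2 _ _ _ _ h1
    by_cases hne : (jx, ix) = (jy, iy)
    · obtain ⟨rfl, rfl⟩ := Prod.mk.inj hne
      rw [hx, hy] at h2
      exact h2.1 rfl
    · apply hAl jx jy ix iy hix hiy hne
      rw [← hx, ← hy]
      refine ⟨hx1.trans hy1.symm, Or.inr (Or.inr ?_)⟩
      rw [hx1]
      exact h2
  -- the new matchings
  have hsel : ∀ b : B, ∃ l : Lam, ∀ i < r, b = z i → mt l (a i) = a (i + 1) := by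
    intro b
    by_cases h : ∃ i < r, b = z i
    · obtain ⟨i, hi, rfl⟩ := h
      obtain ⟨l, hl⟩ := exists_mt _ _ (hfar i hi)
      refine ⟨l, fun i' hi' he => ?_⟩
      rw [← F3' i hi.le i' hi'.le he]
      exact hl
    · refine ⟨(0, false), fun i hi he => ?_⟩
      exact absurd ⟨i, hi, he⟩ h
  choose lsel hlsel using hsel
  have hlast : ∃ l : Lam, a r ∉ I → (∀ t ∈ I, mt l t = mt (M (z r)) t) ∧
      ∃ t ∈ I, Sep t (mt (M (z r)) t) (a r) (mt l (a r)) := by
    by_cases h : a r ∈ I
    · exact ⟨(0, false), fun h' => absurd h h'⟩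
    · obtain ⟨l, hl⟩ := sep_ext (M (z r)) I hIne hIcl hInc (a r) h
      exact ⟨l, fun _ => hl⟩
  obtain ⟨lr, hlr⟩ := hlast
  set Φ : (B → Lam) → (B → Lam) := fun M' b =>
    if b = z r then (if a r ∈ I then M' b else lr)
    else if ∃ i < r, b = z i then lsel b else M' b with hΦ
  have Φr : ∀ M', Φ M' (z r) = if a r ∈ I then M' (z r) else lr := by
    intro M'; rw [hΦ]; simp
  have Φi : ∀ M', ∀ i < r, Φ M' (z i) = lsel (z i) := by
    intro M' i hi
    rw [hΦ]
    simp only
    rw [if_neg (F3 i r hi le_rfl), if_pos ⟨i, hi, rfl⟩]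
  have Φo : ∀ M' b, (∀ i ≤ r, b ≠ z i) → Φ M' b = M' b := by
    intro M' b hb
    rw [hΦ]
    simp only
    rw [if_neg (hb r le_rfl), if_neg]
    rintro ⟨i, hi, he⟩
    exact hb i hi.le he
  -- the history is kept
  have hagr : ∀ M', Agree nb P L j i0 M M' → Agree nb P L j i0 M (Φ M') := by
    intro M' hM'
    apply agree_of_exit
    intro x hx
    by_cases h1 : x.1 = z r
    · rw [h1, Φr]
      split_ifs with h2
      · rw [← h1]; exact agree_exit hM' hx
      · exact (hlr h2).1 x.2 ((hmemI _).2 ⟨x, hx, h1, Or.inl rfl⟩)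
    · rw [Φo M' x.1]
      · exact agree_exit hM' hx
      · intro i hi he
        rcases Nat.lt_or_eq_of_le hi with h | h
        · exact F1 i h x hx he
        · rw [h] at he; exact h1 he
  -- the new piece
  have hpos : ∀ M', Agree nb P L j i0 M M' → ∀ i ≤ r, pos nb (Φ M') (P j) (i0 + i) = (z i, a i) := by
    intro M' hM' i
    induction i with
    | zero =>
      intro _
      have h1 := hagr M' hM' j i0 (by unfold bnd; simp)
      rw [Nat.add_zero, ← h1, hz0, ha0]
    | succ i ih =>
      intro hi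
      have h1 := ih (by omega)
      rw [← Nat.add_assoc, pos_succ, h1]
      unfold step
      have h2 : mt (Φ M' (z i)) (a i) = a (i + 1) := by
        rw [Φi M' i (by omega)]
        exact hlsel (z i) i (by omega) rfl
      simp only [h2]
      rw [hzs i (by omega)]
  -- the conflict
  have hconf : ∀ M', Agree nb P L j i0 M M' → ¬ Alive nb P L j (i0 + (2 * k + 1)) (Φ M') := by
    intro M' hM' hal
    have hag := hagr M' hM'
    -- it is enough to find a processed state in conflict
    have key : ∀ x, Proc nb M P L j i0 x → ¬ Conf (Φ M') x (z r, a r) := by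
      rintro x ⟨jx, ix, hix, rfl⟩ hc
      have h1 := hag jx ix hix.le
      rw [h1, ← hpos M' hM' r le_rfl] at hc
      refine hal jx j ix (i0 + r) ?_ ?_ ?_ hc
      · unfold bnd at hix ⊢
        split_ifs at hix ⊢ <;> omega
      · unfold bnd
        rw [if_neg (lt_irrefl _), if_pos rfl]
        omega
      · intro he
        obtain ⟨h2, h3⟩ := Prod.mk.inj he
        unfold bnd at hix
        rw [h2, if_neg (lt_irrefl _), if_pos rfl] at hix
        omega
    by_cases har : a r ∈ I
    · obtain ⟨x, hx, hx1, h⟩ := (hmemI _).1 har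
      refine key x hx ⟨hx1, ?_⟩
      rcases h with h | h
      · left; exact h
      · right; left
        have e1 := agree_exit hag hx
        rw [e1, hx1]
        exact h
    · obtain ⟨hl1, t, ht, hsep⟩ := hlr har
      obtain ⟨x, hx, hx1, h⟩ := (hmemI _).1 ht
      refine key x hx ⟨hx1, Or.inr (Or.inr ?_)⟩
      have e1 := agree_exit hag hx
      rw [e1, hx1, Φr, if_neg har]
      rcases h with h | h
      · rw [h] at hsep; exact hsep
      · rw [h, mt_mt] at hsep
        exact sep_swap _ _ _ _ hsep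
  -- the counting
  set A : Finset (B → Lam) := univ.filter (fun M' => Agree nb P L j i0 M M') with hA
  set T : Finset (B → Lam) := univ.filter (fun M' => Agree nb P L j i0 M M' ∧
    ¬ Alive nb P L j (i0 + (2 * k + 1)) M') with hT
  have hA' : {M' | Agree nb P L j i0 M M'}.ncard = A.card := by
    rw [Set.ncard_eq_toFinset_card']
    congr 1
    ext M'
    simp [hA]
  have hT' : {M' | Agree nb P L j i0 M M' ∧ ¬ Alive nb P L j (i0 + (2 * k + 1)) M'}.ncard =
      T.card := by
    rw [Set.ncard_eq_toFinset_card']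
    congr 1
    ext M'
    simp [hT]
  rw [hA', hT']
  have hsub : A.image Φ ⊆ T := by
    intro M'' h
    rw [mem_image] at h
    obtain ⟨M', hM', rfl⟩ := h
    rw [hA, mem_filter] at hM'
    rw [hT, mem_filter]
    exact ⟨mem_univ _, hagr M' hM'.2, hconf M' hM'.2⟩
  have hfib : ∀ M'' ∈ A.image Φ, (A.filter (fun M' => Φ M' = M'')).card ≤ 24 ^ (r + 1) := by
    intro M'' _
    have hcardF : Fintype.card (Fin (r + 1) → Lam) = 24 ^ (r + 1) := by
      rw [Fintype.card_fun, Fintype.card_fin]
      rfl
    rw [← hcardF]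
    apply card_le_card_of_injOn (t := (univ : Finset (Fin (r + 1) → Lam)))
      (fun M' i => M' (z i.1)) (fun _ _ => mem_coe.2 (mem_univ _))
    intro M1 h1 M2 h2 he
    rw [mem_coe, mem_filter] at h1 h2
    ext1 b
    by_cases hb : ∃ i ≤ r, b = z i
    · obtain ⟨i, hi, rfl⟩ := hb
      exact congrFun he ⟨i, by omega⟩
    · push Not at hb
      rw [← Φo M1 b hb, ← Φo M2 b hb, h1.2, h2.2]
  have h1 := card_le_mul_card_image A (24 ^ (r + 1)) hfib
  have h2 : 24 ^ (r + 1) ≤ 24 ^ (2 * k + 1) := Nat.pow_le_pow_right (by norm_num) (by omega)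
  calc A.card ≤ 24 ^ (r + 1) * (A.image Φ).card := h1
    _ ≤ 24 ^ (2 * k + 1) * T.card := Nat.mul_le_mul h2 (card_le_card hsub)

end Pool.W1
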