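import Pool.Agent.Work.MP_727c87_w1.RC_MART
import Pool.Agent.Work.MP_727c87_w1.RC_STEP
import Pool.Agent.Work.MP_727c87_w1.RC_LG
import Pool.Agent.Work.MP_727c87_w1.RC_CNT
import Pool.Agent.Work.MP_727c87_w1.RC_DET
import Pool.Agent.Work.MP_727c87_w1.RC_CUT
import Pool.Agent.Work.MP_727c87_w1.RC_NUM1
import Pool.Agent.Work.MP_727c87_w1.RC_NUM2
import Pool.Agent.Work.MP_727c87_w1.RC_RC
import Pool.Agent.Work.MP_727c87_w1.RC_ITER
import Pool.Agent.Work.MP_727c87_w1.RCBridge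

/-!
# MP_727c87: assembly of part (B), RC'
-/

namespace Pool.W1

theorem stmt_CNT : Stmt_CNT := blk_CNT blk_MART blk_STEP

theorem stmt_RC_of (DET : Stmt_DET) : Stmt_RC :=
  blk_RC stmt_CNT DET blk_CUT blk_NUM1 blk_NUM2

theorem stmt_ITER_of (DET : Stmt_DET) : Stmt_ITER := blk_ITER (stmt_RC_of DET)

theorem stmt_RCX_of (DET : Stmt_DET) : Stmt_RCX := rcx_of_iter (stmt_ITER_of DET)

theorem stmt_DET : Stmt_DET := blk_DET blk_LG

theorem stmt_ITER : Stmt_ITER := stmt_ITER_of stmt_DET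

/-- the output of part (B) -/
theorem stmt_RCX : Stmt_RCX := stmt_RCX_of stmt_DET

end Pool.W1
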