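import Mathlib

/-!
# MP_727c87_gt, common combinatorial core (helper79)

The polygon has 12 sides, indexed by `Side = ZMod 12`.  `Lam` indexes the 24 matchings used.
Chambers: a type `B` with `nb : B → Side → B`, `nb g s` is the chamber on the other side of
the side `s` of `g`.
-/

namespace Pool.W1

/-- sides of the 12-gon -/
abbrev Side := ZMod 12

/-- cyclic distance at least 3 -/
def Far (a b : Side) : Prop := 3 ≤ (b - a).val ∧ (b - a).val ≤ 9

instance (a b : Side) : Decidable (Far a b) :=
  inferInstanceAs (Decidable (3 ≤ (b - a).val ∧ (b - a).val ≤ 9))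

/-- the sides `b`, `b'` are strictly separated by the chord joining the sides `a`, `a'` -/
def Sep (a a' b b' : Side) : Prop :=
  b ≠ a ∧ b ≠ a' ∧ b' ≠ a ∧ b' ≠ a' ∧
    ((b - a).val < (a' - a).val ↔ ¬ (b' - a).val < (a' - a).val)

instance (a a' b b' : Side) : Decidable (Sep a a' b b') :=
  inferInstanceAs (Decidable (b ≠ a ∧ b ≠ a' ∧ b' ≠ a ∧ b' ≠ a' ∧
    ((b - a).val < (a' - a).val ↔ ¬ (b' - a).val < (a' - a).val)))

/-- index set of the 24 matchings -/
abbrev Lam := ZMod 12 × Bool

/-- the two basic matchings `(0 3)(1 4)(2 7)(5 9)(6 10)(8 11)` and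
`(0 3)(1 5)(2 8)(4 9)(6 10)(7 11)` -/
def base (c : Bool) (s : Side) : Side :=
  match c with
  | false => (![3, 4, 7, 0, 1, 9, 10, 2, 11, 5, 6, 8] : Fin 12 → ZMod 12) s
  | true => (![3, 5, 8, 0, 9, 1, 10, 11, 2, 4, 6, 7] : Fin 12 → ZMod 12) s

/-- the matching with index `l`: a basic matching rotated by `l.1` -/
def mt (l : Lam) (s : Side) : Side := base l.2 (s - l.1) + l.1

section Chambers

variable {B : Type}

/-- end of the gallery which starts at `g` and crosses the sides `w` one after the other -/
def walk (nb : B → Side → B) (g : B) (w : List Side) : B := w.foldl nb g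

/-- rigid words: consecutive letters at cyclic distance at least 3 -/
def Rigid (w : List Side) : Prop := w.IsChain Far

/-- crossing the same side twice leads back -/
def Invol (nb : B → Side → B) : Prop := ∀ g s, nb (nb g s) s = g

/-- rigid words of length at most `R` from a chamber have different ends -/
def InjR (nb : B → Side → B) (R : ℕ) : Prop :=
  ∀ (g : B) (u v : List Side), Rigid u → Rigid v → u.length ≤ R → v.length ≤ R →
    walk nb g u = walk nb g v → u = v

/-- a state `(g, s)`: the chamber `g`, entered through its side `s` -/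
abbrev State (B : Type) := B × Side

/-- one step along the line of the matchings `M`: leave `x.1` through the partner of the
entering side -/
def step (nb : B → Side → B) (M : B → Lam) (x : State B) : State B :=
  (nb x.1 (mt (M x.1) x.2), mt (M x.1) x.2)

/-- the chord of `y` crosses the chord of `x` (same chamber, all four sides different) -/
def Crs (M : B → Lam) (x y : State B) : Prop :=
  x.1 = y.1 ∧ Sep x.2 (mt (M x.1) x.2) y.2 (mt (M x.1) y.2)

/-- the states covered by the runs that start at `x` and have `ell x` chambers -/
def Cov (nb : B → Side → B) (M : B → Lam) (ell : State B → ℕ) : Set (State B) :=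
  {y | ∃ x i, i < ell x ∧ (step nb M)^[i] x = y}

end Chambers

end Pool.W1
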