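import Pool.Agent.Work.MP_727c87_w1.Core

/-! # Part RC', block RC1: finite facts about the 24 matchings (all by `decide +kernel`) -/

namespace Pool.W1

theorem mt_mt : ∀ (l : Lam) (s : Side), mt l (mt l s) = s := by decide +kernel

theorem far_mt : ∀ (l : Lam) (s : Side), Far s (mt l s) := by decide +kernel

theorem far_symm : ∀ a b : Side, Far a b → Far b a := by decide +kernel

theorem mt_ne (l : Lam) (s : Side) : mt l s ≠ s := by
  intro h
  have := far_mt l s
  rw [h] at this
  simp [Far] at this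

theorem exists_mt : ∀ s t : Side, Far s t → ∃ l : Lam, mt l s = t := by decide +kernel

theorem sep_ext1 : ∀ (l : Lam) (a b : Side), b ≠ a → b ≠ mt l a →
    ∃ l' : Lam, mt l' a = mt l a ∧ Sep a (mt l a) b (mt l' b) := by decide +kernel

set_option maxRecDepth 100000 in
theorem sep_ext2 : ∀ (l : Lam) (a c : Side), c ≠ a → c ≠ mt l a →
    ¬ Sep a (mt l a) c (mt l c) → ∀ b, b ≠ a → b ≠ mt l a → b ≠ c → b ≠ mt l c →
    ∃ l' : Lam, mt l' a = mt l a ∧ mt l' c = mt l c ∧
      (Sep a (mt l a) b (mt l' b) ∨ Sep c (mt l c) b (mt l' b)) := by decide +kernel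

set_option maxRecDepth 100000 in
theorem no_three : ∀ (l : Lam) (a c : Side), c ≠ a → c ≠ mt l a →
    ¬ Sep a (mt l a) c (mt l c) → ∀ b, b ≠ a → b ≠ mt l a → b ≠ c → b ≠ mt l c →
    Sep a (mt l a) b (mt l b) ∨ Sep c (mt l c) b (mt l b) := by decide +kernel

/-- For every nonempty set `I` of sides closed under the matching `l` whose chords do not
cross and every side `b` outside `I`, some matching agrees with `l` on `I` and joins `b`
across a chord of `I`. -/
theorem sep_ext (l : Lam) (I : Finset Side) (hI : I.Nonempty) (hcl : ∀ s ∈ I, mt l s ∈ I)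
    (hnc : ∀ s ∈ I, ∀ t ∈ I, ¬ Sep s (mt l s) t (mt l t)) (b : Side) (hb : b ∉ I) :
    ∃ l' : Lam, (∀ s ∈ I, mt l' s = mt l s) ∧ ∃ s ∈ I, Sep s (mt l s) b (mt l' b) := by
  obtain ⟨a, ha⟩ := hI
  have hma := hcl a ha
  have hba : b ≠ a := fun h => hb (h ▸ ha)
  have hbma : b ≠ mt l a := fun h => hb (h ▸ hma)
  by_cases hc : ∃ c ∈ I, c ≠ a ∧ c ≠ mt l a
  · obtain ⟨c, hcI, hca, hcma⟩ := hc
    have hmc := hcl c hcI
    have hbc : b ≠ c := fun h => hb (h ▸ hcI)
    have hbmc : b ≠ mt l c := fun h => hb (h ▸ hmc)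
    have hn := hnc a ha c hcI
    obtain ⟨l', h1, h2, h3⟩ := sep_ext2 l a c hca hcma hn b hba hbma hbc hbmc
    refine ⟨l', ?_, ?_⟩
    · intro s hs
      by_cases e1 : s = a
      · rw [e1, h1]
      by_cases e2 : s = mt l a
      · have : mt l' (mt l' a) = a := mt_mt l' a
        rw [h1] at this
        rw [e2, this, mt_mt]
      by_cases e3 : s = c
      · rw [e3, h2]
      by_cases e4 : s = mt l c
      · have : mt l' (mt l' c) = c := mt_mt l' c
        rw [h2] at this
        rw [e4, this, mt_mt]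
      exfalso
      rcases no_three l a c hca hcma hn s e1 e2 e3 e4 with h | h
      · exact hnc a ha s hs h
      · exact hnc c hcI s hs h
    · rcases h3 with h | h
      · exact ⟨a, ha, h⟩
      · exact ⟨c, hcI, h⟩
  · obtain ⟨l', h1, h2⟩ := sep_ext1 l a b hba hbma
    refine ⟨l', ?_, a, ha, h2⟩
    intro s hs
    by_cases e1 : s = a
    · rw [e1, h1]
    have e2 : s = mt l a := by
      by_contra e2
      exact hc ⟨s, hs, e1, e2⟩
    have : mt l' (mt l' a) = a := mt_mt l' a
    rw [h1] at this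
    rw [e2, this, mt_mt]

end Pool.W1
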