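import Pool.Agent.Work.MP_727c87_w1.RCLib

/-!
# MP_727c87_gt, part RC' : interface (helper79)

Goal `Stmt_ITER`: for all `K`, `e > 0` there are `a > 0`, `R` such that every finite chamber
system with `InjR nb R` has a choice of matchings `M` for which no noncrossing system of
strand pieces can reach, from a set of at most `a |B|` chambers and with `K` rounds
(cross one side, then follow the line), more than `e |B|` chambers.

All statements are `Prop`s `Stmt_XXX`; block XXX proves `theorem blk_XXX ... : Stmt_XXX` from the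
listed dependencies.  Facts on words, pieces, `pos`, `exits`, `Conf`, `rev` are in `RCLib.lean`,
facts on the matchings (`sep_ext`!) in `RC1.lean`.
-/

namespace Pool.W1

section Defs

variable {B : Type} (nb : B → Side → B)

/-- the `N` pieces of length `L` starting at `P j` have different, noncrossing chords -/
def NoConf (M : B → Lam) {N : ℕ} (P : Fin N → State B) (L : ℕ) : Prop :=
  ∀ (j j' : Fin N) (i i' : ℕ), i < L → i' < L → (j, i) ≠ (j', i') →
    ¬ Conf M (pos nb M (P j) i) (pos nb M (P j') i')

/-- some rigid word of length at most `2k` leads from the `i`-th state of piece `j` to a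
chamber of piece `j'` -/
def Sees (M : B → Lam) {N : ℕ} (P : Fin N → State B) (L k : ℕ) (j : Fin N) (i : ℕ)
    (j' : Fin N) : Prop :=
  ∃ (w : List Side) (i' : ℕ), i' < L ∧ w.length ≤ 2 * k ∧
    Rigid ((pos nb M (P j) i).2 :: w) ∧
    walk nb (pos nb M (P j) i).1 w = (pos nb M (P j') i').1

/-- the pieces are processed one after the other; when piece `j` has been processed up to
offset `i0`, the states of piece `j'` with offset `< bnd L j i0 j'` are known together with
their exits -/
def bnd {N : ℕ} (L : ℕ) (j : Fin N) (i0 : ℕ) (j' : Fin N) : ℕ :=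
  if j' < j then L else if j' = j then i0 else 0

/-- `M` and `M'` have the same history at the moment `(j, i0)` -/
def Agree {N : ℕ} (P : Fin N → State B) (L : ℕ) (j : Fin N) (i0 : ℕ) (M M' : B → Lam) : Prop :=
  ∀ (j' : Fin N) (i : ℕ), i ≤ bnd L j i0 j' → pos nb M (P j') i = pos nb M' (P j') i

/-- no conflict among the states processed before the moment `(j, i0)` -/
def Alive {N : ℕ} (P : Fin N → State B) (L : ℕ) (j : Fin N) (i0 : ℕ) (M : B → Lam) : Prop :=
  ∀ (j1 j2 : Fin N) (i1 i2 : ℕ), i1 < bnd L j i0 j1 → i2 < bnd L j i0 j2 →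
    (j1, i1) ≠ (j2, i2) → ¬ Conf M (pos nb M (P j1) i1) (pos nb M (P j2) i2)

/-- no crossing among the states covered by the runs `ell` -/
def NonCrossing (M : B → Lam) (ell : State B → ℕ) : Prop :=
  ∀ x ∈ Cov nb M ell, ∀ y ∈ Cov nb M ell, ¬ Crs M x y

/-- `M` is good for `(e, a)`: at most `a |B|` noncrossing runs cover at most `e |B|` states -/
def RCgood (M : B → Lam) (e a : ℝ) : Prop :=
  ∀ ell : State B → ℕ, ({x | ell x ≠ 0}.ncard : ℝ) ≤ a * Nat.card B → NonCrossing nb M ell →
    ((Cov nb M ell).ncard : ℝ) ≤ e * Nat.card B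

/-- `y` is reached from the chamber `z`: cross a side `s` of `z`, then follow the line of `M`
through `l` chambers in which the strand system `S` contains the chord of the line -/
def Reach1 (M : B → Lam) (S : B → Side → Side → Prop) (z y : B) : Prop :=
  ∃ (s : Side) (l : ℕ),
    (∀ i < l, S (pos nb M (nb z s, s) i).1 (pos nb M (nb z s, s) i).2
      (mt (M (pos nb M (nb z s, s) i).1) (pos nb M (nb z s, s) i).2)) ∧
    y = (pos nb M (nb z s, s) l).1

/-- chambers reached from `Z` in at most `j` rounds -/
def reach (M : B → Lam) (S : B → Side → Side → Prop) (Z : Set B) : ℕ → Set B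
  | 0 => Z
  | j + 1 => reach M S Z j ∪ {y | ∃ z ∈ reach M S Z j, Reach1 nb M S z y}

end Defs

/-- strand pieces `S g s t` (in chamber `g` a strand joins the sides `s` and `t`), noncrossing -/
def StrandNC {B : Type} (S : B → Side → Side → Prop) : Prop :=
  ∀ g s t s' t', S g s t → S g s' t' → ¬ Sep s t s' t'

/-- **MART** (100 lines, pure counting).  Proof: put `q = 1 - 1/D`, `e t M` = number of `t' < t`
with `El t' M`.  Claim by induction on `t ≤ T`, for weights `q^(-e)`; more convenient without
division: for every `t ≤ T` and `c`, induct downwards or prove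
`∑_{M : Al t M} q^(-(e t M)) ≤ |Ω|` (if `q = 0`, i.e. `D = 1`, eligible classes have no `M'` with
`Al (t+1) M'`; treat it separately or prove for every `c` directly
`#{M | Al t M ∧ e t M = c'} ...`).  Step: split the sum over `Al (t+1)` according to the value of
`H t` (`Finset.sum_fiberwise`); on a fibre `Al t`, `El t`, `e t` are constant; if `El t` fails,
`Al (t+1) → Al t` and `e (t+1) = e t`; if `El t` holds, the number of `M'` in the fibre with
`Al (t+1) M'` is at most `q` times the size of the fibre, and `e (t+1) = e t + 1`.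
Finally `q^(-e T M) ≥ q^(-c)` on the set to be counted. -/
def Stmt_MART : Prop :=
  ∀ (Ω X : Type) [Finite Ω] (T D : ℕ) (H : ℕ → Ω → X) (Al El : ℕ → Ω → Prop), 0 < D →
    (∀ t < T, ∀ M M', H (t + 1) M = H (t + 1) M' → H t M = H t M') →
    (∀ t ≤ T, ∀ M M', H t M = H t M' → Al t M → Al t M') →
    (∀ t < T, ∀ M M', H t M = H t M' → El t M → El t M') →
    (∀ t < T, ∀ M, Al (t + 1) M → Al t M) →
    (∀ t < T, ∀ M, Al t M → El t M →
      {M' | H t M' = H t M}.ncard ≤ D * {M' | H t M' = H t M ∧ ¬ Al (t + 1) M'}.ncard) →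
    ∀ c : ℕ, ({M | Al T M ∧ c ≤ {t | t < T ∧ El t M}.ncard}.ncard : ℝ) ≤
      (1 - 1 / (D : ℝ)) ^ c * (Nat.card Ω : ℝ)

/-- **STEP** (250 lines).  One eligible block fails with conditional probability at least
`24^-(2k+1)`.  Proof.  `(g, s) := pos nb M (P j) i0`.  Choose a word `w` of MINIMAL length with
`w.length ≤ 2k`, `Rigid (s :: w)` and `walk nb g w = (pos nb M (P j') i').1` for some `j' < j`,
`i' < L` (exists by hypothesis); `r = w.length`, `z i = walk nb g (w.take i)`,
`a i = (s :: w).getD i _` (the chamber `z i` is entered through `a i`), `i ≤ r`.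
Call a state `pos nb M (P j') i'` with `i' < bnd L j i0 j'` processed.
(F1) for `i < r` no processed state of a piece `j' < j` lies in `z i` (minimality, `w.take i`);
(F2) for `i ≤ r` no processed state of piece `j` lies in `z i`: `exits` from it to `(g, s)`
followed by `w.take i` is rigid (`rigid_exits_append`), nonempty, of length `≤ L + 2k`;
(F3) the `z i`, `i ≤ r`, are different (`w.take`/`drop` rigid, `InjR`).
`I` := set of the sides `t` such that a processed state `x` in `z r` has `t = x.2` or
`t = mt (M (z r)) x.2`; nonempty, closed under `mt (M (z r))`, its chords do not cross (`Alive`,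
`sep_swap`).  For `M'` with `Agree .. M M'`: `mt (M' (z r))` and `mt (M (z r))` agree on `I`
(exits are the second components of the next states, `pos_succ_snd`).
Map `Φ M'` := `M'` changed at `z 0, .., z r` only: at `z i`, `i < r`, to a fixed `l i` with
`mt (l i) (a i) = a (i+1)` (`exists_mt`); at `z r` to a fixed `l r` with `mt (l r) = mt (M (z r))`
on `I` and `Sep t (mt (M (z r)) t) (a r) (mt (l r) (a r))` for some `t ∈ I` (`sep_ext`) if
`a r ∉ I`, unchanged if `a r ∈ I`.  Processed states keep their exits under `Φ M'`, so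
`Agree .. M (Φ M')` (induction on the offset); then `pos nb (Φ M') (P j) (i0 + i) = (z i, a i)`
for `i ≤ r`, and the state `(z r, a r)` is in conflict with a processed state:
`¬ Alive .. (i0 + (2k+1)) (Φ M')`.  `M'` is determined by `Φ M'` and `M' (z 0), .., M' (z r)`, so
the fibres of `Φ` have at most `24^(r+1) ≤ 24^(2k+1)` elements. -/
def Stmt_STEP : Prop :=
  ∀ (B : Type) [Finite B] (nb : B → Side → B) (N L k : ℕ) (P : Fin N → State B) (j : Fin N)
    (i0 : ℕ) (M : B → Lam), Invol nb → InjR nb (L + 2 * k) → i0 + (2 * k + 1) ≤ L →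
    Alive nb P L j i0 M → (∃ j' < j, Sees nb M P L k j i0 j') →
    {M' | Agree nb P L j i0 M M'}.ncard ≤
      24 ^ (2 * k + 1) *
        {M' | Agree nb P L j i0 M M' ∧ ¬ Alive nb P L j (i0 + (2 * k + 1)) M'}.ncard

/-- **CNT** (200 lines, deps MART STEP).  Fixed starts `P`, residue `r`, `q = 2k+1`,
`L = q (b+1)`; block `(j, β)` starts at offset `r + q β`, `β < b`.  Proof: `MART` with
`T = N b`, `t ↦ (j, β) = (t / b, t % b)` (for `b = 0` or `N = 0` trivial: the count of blocks is
`0`), `D = 24^q`, `X = Fin N → Fin (L+1) → State B`,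
`H t M j' i = pos nb M (P j') (min i (bnd' t j'))` with `bnd' t j' = L` if `j' < t / b`,
`r + q (t % b)` if `j' = t / b`, `0` otherwise; `H t M = H t M'` iff `Agree`.
`Al t M` = no conflict among the states with offset `< bnd' t`; it depends on `H t M` only since
the exit of a state is the second component of the next one; `El t M = ∃ j' < j, Sees ..`.
`bnd'` is nondecreasing in `t` and `bnd' (t+1) j ≥ r + q β + q` in both cases.
`NoConf nb M P L → Al T M`. -/
def Stmt_CNT : Prop :=
  ∀ (B : Type) [Finite B] (nb : B → Side → B) (N k b r c : ℕ) (P : Fin N → State B),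
    Invol nb → InjR nb ((2 * k + 1) * (b + 1) + 2 * k) → r < 2 * k + 1 →
    ({M : B → Lam | NoConf nb M P ((2 * k + 1) * (b + 1)) ∧
        c ≤ {x : Fin N × Fin b | ∃ j' < x.1,
          Sees nb M P ((2 * k + 1) * (b + 1)) k x.1 (r + (2 * k + 1) * x.2.1) j'}.ncard}.ncard : ℝ)
      ≤ (1 - 1 / (24 : ℝ) ^ (2 * k + 1)) ^ c * (Nat.card (B → Lam) : ℝ)

/-- **LG** (250 lines), Lemma G.  Proof.  For `x = (j, i) ∈ X` with state
`(g, s) = pos nb M (P j) i` consider the words `w` of length `k` with `Rigid (s :: w)` and, if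
`k ≥ 1`, first letter different from the exit `mt (M g) s`: at least `6^k` of them (7 letters are
far from a given one, one exit excluded).  Claim: at most `3^k` pairs `(x, w)` have the same end
`y = walk nb g w`.
(a) If `(x, w)`, `(x', w')` end in `y`, `w = u a v`, `w' = u' a' v` (same suffix `v`), `a ≠ a'`,
then `¬ Far a a'`: otherwise `W = u a a' u'^-1` (reversed `u'`) is a rigid word of length `≤ 2k`
from the chamber of `x` to the chamber of `x'` with `Rigid (s :: W)`; if the pieces `j ≠ j'`
differ, `x` sees `j'`, contradiction; if `j = j'`, `i ≤ i'`, the exits of the piece give another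
rigid word of length `i' - i ≤ L` with the same ends, its first letter (if any) is the exit of
`x`, the first letter of `W` is the first letter of `w`: contradiction to `InjR`; if `i' < i` use
the reversed word from `x'`.
(b) sets of sides pairwise not `Far` have at most 3 elements (decide or by hand), so at most
`3^k` words `w` end in `y` (induction on the length of the common suffix: a set of words of
length `k` in which any two words that differ last at place `c` have letters there that are not
`Far`: at most `3^k` words);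
(c) `w` and `y` determine the chamber of `x` (`walk_inj`), two members of `X` in the same chamber
are equal (`Sees` with the empty word; `pos_fst_ne` inside one piece).
Double counting: `|X| 6^k ≤ 3^k |B|`. -/
def Stmt_LG : Prop :=
  ∀ (B : Type) [Finite B] (nb : B → Side → B) (M : B → Lam) (N L k : ℕ) (P : Fin N → State B),
    Invol nb → InjR nb (L + 2 * k) →
    ∀ X : Set (Fin N × ℕ), (∀ x ∈ X, x.2 < L ∧ ∀ j', j' ≠ x.1 → ¬ Sees nb M P L k x.1 x.2 j') →
      X.ncard * 6 ^ k ≤ 3 ^ k * Nat.card B

/-- **DET** (150 lines, deps LG).  `q = 2k+1`, `L = q (b+1)`.  By LG at most `|B| / 2^k ≤ N L / 4`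
of the `N L` pairs `(j, i)` see no other piece; at most `N q ≤ N L / 4` have `i ≥ q b`; every
other one has offset `i = r + q β`, `r < q`, `β < b` and sees some `j' < j` or some `j' > j`; the
latter means: in the family `P ∘ Fin.rev` piece `Fin.rev j` sees the earlier piece `Fin.rev j'`.
So one of the `2 q` sets has at least `N L / (4 q)` elements. -/
def Stmt_DET : Prop :=
  ∀ (B : Type) [Finite B] (nb : B → Side → B) (M : B → Lam) (N k b : ℕ) (P : Fin N → State B),
    Invol nb → InjR nb ((2 * k + 1) * (b + 1) + 2 * k) → 3 ≤ b →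
    4 * Nat.card B ≤ 2 ^ k * (N * ((2 * k + 1) * (b + 1))) →
    ∃ r < 2 * k + 1,
      N * (b + 1) ≤ 4 * {x : Fin N × Fin b | ∃ j' < x.1,
          Sees nb M P ((2 * k + 1) * (b + 1)) k x.1 (r + (2 * k + 1) * x.2.1) j'}.ncard ∨
      N * (b + 1) ≤ 4 * {x : Fin N × Fin b | ∃ j' < x.1,
          Sees nb M (P ∘ Fin.rev) ((2 * k + 1) * (b + 1)) k x.1
            (r + (2 * k + 1) * x.2.1) j'}.ncard

/-- **CUT** (200 lines).  Runs that cover many states contain `N` pieces of length `L` without
conflicts.  Proof.  `Pall := {pos x (c L) | (c+1) L ≤ ell x}`; the states of `Cov` outside the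
pieces `I p = {pos p i | i < L}`, `p ∈ Pall`, are at most `L` per run.  Two states of `Cov` are
in conflict iff `y = x` or `y = rev x` (no crossings).  Take a maximal subset `Q` of `Pall` such
that different members have no conflicts between their pieces.  Inside one piece there are no
conflicts (`pos_fst_ne`).  `σ = step` is a permutation (`step_injective`, finite), and
`rev (σ x) = σ^-1 (rev x)` (`step_rev_step`).  If `p` is in conflict with `p' ∈ Q` (or `p = p'`)
then `I p` is contained in `{σ^c p', σ^c (rev p') | -2L < c < 2L}`: less than `8L` states.  So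
`|Q| 8 L ≥ |Cov| - |{ell ≠ 0}| L ≥ 8 L N`, enumerate `N` members of `Q`. -/
def Stmt_CUT : Prop :=
  ∀ (B : Type) [Finite B] (nb : B → Side → B) (M : B → Lam) (N L : ℕ) (ell : State B → ℕ),
    Invol nb → InjR nb L → 0 < L → NonCrossing nb M ell →
    {x | ell x ≠ 0}.ncard * L + 8 * L * N ≤ (Cov nb M ell).ncard →
    ∃ P : Fin N → State B, Function.Injective P ∧ NoConf nb M P L

/-- **NUM1** (30 lines): `b c^b → 0`. -/
def Stmt_NUM1 : Prop :=
  ∀ A c : ℝ, 0 ≤ c → c < 1 → ∃ b : ℕ, 1 ≤ b ∧ A * b * c ^ b ≤ 1 / 2

/-- **NUM2** (40 lines): `N^N ≤ 3^N N!`, so `choose a N ≤ (3 a / N)^N`. -/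
def Stmt_NUM2 : Prop :=
  ∀ a N : ℕ, 1 ≤ N → (Nat.choose a N : ℝ) ≤ (3 * a / N) ^ N

/-- **RC** (250 lines, deps CNT DET CUT NUM1 NUM2).  The fraction of the `M` that are not good for
`(e, a)` is at most `d` if `R` is large.  Proof.  WLOG `e ≤ 1`.  `n = |B|`.
`k` with `2^k e ≥ 128`; `q = 2k+1`; `c0 = 1 - 24^-q`;
`b' ≥ 1` with `(36 * 32 * 4 * q / e) b' c0^b' ≤ 1/2` (NUM1), `b = 4 b' - 1`, `L = q (b+1)`,
`a = e / (2 L)`, `N = ⌊e n / (16 L)⌋`, so `N L ≥ e n / 32` for `n ≥ 32 L / e`.
If `M` is not good: `|{ell ≠ 0}| L + 8 L N ≤ e n < |Cov|`, CUT gives `P`; its range is one of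
the `choose (12 n) N` `N`-subsets of `State B`; fix an enumeration `P'` of every `N`-subset
(`Finset.orderEmbOfFin` or any choice), `NoConf` does not depend on the order, so `NoConf` for
`P'` and for `P' ∘ Fin.rev`.  DET (for `P'`): with `c = N b'`, `M` lies in one of the `2 q` sets
bounded by CNT (for `P'`, resp. `P' ∘ Fin.rev`, and `r`).  Altogether the number of bad `M` is at
most `choose (12n) N * 2 q * c0^(N b') |Ω| ≤ 2 q ((36 n / N) c0^b')^N |Ω| ≤ 2 q 2^-N |Ω|`
(`n / N ≤ 32 L / e`, `L = 4 q b'`), and `2 q 2^-N ≤ d` for `n ≥ n0`; `|B| > R` by `card_gt`. -/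
def Stmt_RC : Prop :=
  ∀ e : ℝ, 0 < e → ∃ a : ℝ, 0 < a ∧ ∀ d : ℝ, 0 < d → ∃ R : ℕ,
    ∀ (B : Type) [Finite B] [Nonempty B] (nb : B → Side → B), Invol nb → InjR nb R →
      ({M : B → Lam | ¬ RCgood nb M e a}.ncard : ℝ) ≤ d * (Nat.card (B → Lam) : ℝ)

/-- **ITER** (200 lines, deps RC): final output of part RC'.  Proof.  Define downwards
`c K = e / 2` and, given `c (j+1)`: `a j` = the `a` of RC for `c (j+1) / 2`,
`c j = min (c (j+1) / 26) (a j / 12)`.  For `d = 1 / (2 K + 2)` and `R` = maximum of the `R`s some
`M` is good for all the pairs `(c (j+1) / 2, a j)`.  If `|reach j| ≤ c j n`: take the starts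
`x = (nb z s, s)`, `z ∈ reach j` (at most `12 |reach j| ≤ a j n`), `ell x` = largest `l ≤ |State B|`
such that the first `l` states of the run from `x` have their chords in `S`; `StrandNC S` gives
`NonCrossing`; a point of `reach (j+1)` outside `reach j` is the chamber of a start or the chamber
of `step y`, `y ∈ Cov` (a run of any length visits only states that occur among its first
`|State B|` ones).  So `|reach (j+1)| ≤ 13 c j n + c (j+1) n / 2 ≤ c (j+1) n`.
Finally `c K n = e n / 2 < e n`. -/
def Stmt_ITER : Prop :=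
  ∀ (K : ℕ) (e : ℝ), 0 < e → ∃ a : ℝ, 0 < a ∧ ∃ R : ℕ,
    ∀ (B : Type) [Finite B] [Nonempty B] (nb : B → Side → B), Invol nb → InjR nb R →
      ∃ M : B → Lam, ∀ S : B → Side → Side → Prop, StrandNC S →
        ∀ Z : Set B, (Z.ncard : ℝ) ≤ a * Nat.card B →
          ((reach nb M S Z K).ncard : ℝ) < e * Nat.card B

end Pool.W1
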