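import Pool.Agent.Work.MP_727c87_w1.RC1

/-! # Part RC': library on walks, rigid words and pieces of lines -/

namespace Pool.W1

theorem far_ne {a b : Side} (h : Far a b) : a ≠ b := by
  rintro rfl
  simp [Far] at h

set_option maxRecDepth 100000 in
/-- swapping the two ends of the separating chord -/
theorem sep_swap : ∀ a a' b b' : Side, Sep a a' b b' → Sep a' a b b' := by decide +kernel

section Walk

variable {B : Type} (nb : B → Side → B)

@[simp] theorem walk_nil (g : B) : walk nb g [] = g := rfl

@[simp] theorem walk_cons (g : B) (s : Side) (w : List Side) :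
    walk nb g (s :: w) = walk nb (nb g s) w := rfl

theorem walk_append (g : B) (u v : List Side) :
    walk nb g (u ++ v) = walk nb (walk nb g u) v := by
  simp [walk, List.foldl_append]

variable {nb}

theorem walk_reverse (h : Invol nb) (w : List Side) (g : B) :
    walk nb (walk nb g w) w.reverse = g := by
  induction w generalizing g with
  | nil => rfl
  | cons s w ih =>
    rw [walk_cons, List.reverse_cons, walk_append, ih]
    exact h g s

theorem nb_inj (h : Invol nb) {g g' : B} {s : Side} (e : nb g s = nb g' s) : g = g' := by
  have := congrArg (fun x => nb x s) e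
  simpa [h g s, h g' s] using this

theorem walk_inj (h : Invol nb) (w : List Side) {g g' : B} (e : walk nb g w = walk nb g' w) :
    g = g' := by
  rw [← walk_reverse h w g, e, walk_reverse h]

end Walk

theorem rigid_nil : Rigid [] := by simp [Rigid]

theorem rigid_single (a : Side) : Rigid [a] := by simp [Rigid]

theorem rigid_cons_cons {a b : Side} {w : List Side} :
    Rigid (a :: b :: w) ↔ Far a b ∧ Rigid (b :: w) := by
  simp [Rigid]

theorem Rigid.tail {a : Side} {w : List Side} (h : Rigid (a :: w)) : Rigid w := by
  unfold Rigid at *
  exact List.IsChain.of_cons h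

theorem rigid_reverse {w : List Side} : Rigid w.reverse ↔ Rigid w := by
  unfold Rigid
  rw [List.isChain_reverse]
  constructor
  · intro h
    exact h.imp (fun a b hab => far_symm _ _ hab)
  · intro h
    exact h.imp (fun a b hab => far_symm _ _ hab)

theorem Rigid.left {u v : List Side} (h : Rigid (u ++ v)) : Rigid u :=
  (List.isChain_append.1 h).1

theorem Rigid.right {u v : List Side} (h : Rigid (u ++ v)) : Rigid v :=
  (List.isChain_append.1 h).2.1

/-- glue two rigid words with a common letter -/
theorem rigid_glue {u v : List Side} {a : Side} (h1 : Rigid (u ++ [a])) (h2 : Rigid (a :: v)) :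
    Rigid (u ++ a :: v) := by
  unfold Rigid at *
  exact List.isChain_split.2 ⟨h1, h2⟩

/-- glue two rigid words whose adjacent letters are far -/
theorem rigid_glue' {u v : List Side} {a b : Side} (h1 : Rigid (u ++ [a])) (h2 : Rigid (b :: v))
    (hab : Far a b) : Rigid (u ++ a :: b :: v) := by
  apply rigid_glue h1
  rw [rigid_cons_cons]
  exact ⟨hab, h2⟩

section Pieces

variable {B : Type} (nb : B → Side → B) (M : B → Lam)

/-- `i`-th state of the piece of a line that starts with the state `x` -/
def pos (x : State B) (i : ℕ) : State B := (step nb M)^[i] x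

@[simp] theorem pos_zero (x : State B) : pos nb M x 0 = x := rfl

theorem pos_succ (x : State B) (i : ℕ) : pos nb M x (i + 1) = step nb M (pos nb M x i) := by
  simp [pos, Function.iterate_succ_apply']

theorem pos_add (x : State B) (i j : ℕ) : pos nb M x (i + j) = pos nb M (pos nb M x i) j := by
  simp only [pos]
  rw [Nat.add_comm, Function.iterate_add_apply]

theorem pos_succ_fst (x : State B) (i : ℕ) :
    (pos nb M x (i + 1)).1 = nb (pos nb M x i).1 (pos nb M x (i + 1)).2 := by
  rw [pos_succ]; rfl

theorem pos_succ_snd (x : State B) (i : ℕ) :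
    (pos nb M x (i + 1)).2 = mt (M (pos nb M x i).1) (pos nb M x i).2 := by
  rw [pos_succ]; rfl

/-- the sides crossed by the first `i` steps of the piece that starts at `x` -/
def exits (x : State B) : ℕ → List Side
  | 0 => []
  | i + 1 => exits x i ++ [(pos nb M x (i + 1)).2]

@[simp] theorem exits_zero (x : State B) : exits nb M x 0 = [] := rfl

theorem exits_succ (x : State B) (i : ℕ) :
    exits nb M x (i + 1) = exits nb M x i ++ [(pos nb M x (i + 1)).2] := rfl

@[simp] theorem length_exits (x : State B) (i : ℕ) : (exits nb M x i).length = i := by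
  induction i with
  | zero => rfl
  | succ i ih => rw [exits_succ, List.length_append, ih]; rfl

theorem walk_exits (x : State B) (i : ℕ) :
    walk nb x.1 (exits nb M x i) = (pos nb M x i).1 := by
  induction i with
  | zero => rfl
  | succ i ih =>
    rw [exits_succ, walk_append, ih, walk_cons, walk_nil, pos_succ_fst]

theorem cons_exits_eq (x : State B) (i : ℕ) :
    ∃ u : List Side, x.2 :: exits nb M x i = u ++ [(pos nb M x i).2] := by
  cases i with
  | zero => exact ⟨[], rfl⟩
  | succ i => exact ⟨x.2 :: exits nb M x i, by rw [exits_succ]; rfl⟩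

theorem rigid_exits (x : State B) (i : ℕ) : Rigid (x.2 :: exits nb M x i) := by
  induction i with
  | zero => exact rigid_single _
  | succ i ih =>
    obtain ⟨u, hu⟩ := cons_exits_eq nb M x i
    rw [exits_succ, ← List.cons_append, hu, List.append_assoc]
    rw [hu] at ih
    refine rigid_glue' ih (rigid_single _) ?_
    rw [pos_succ_snd]
    exact far_mt _ _

/-- a rigid continuation of a piece -/
theorem rigid_exits_append (x : State B) (i : ℕ) {w : List Side}
    (h : Rigid ((pos nb M x i).2 :: w)) : Rigid (x.2 :: (exits nb M x i ++ w)) := by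
  obtain ⟨u, hu⟩ := cons_exits_eq nb M x i
  have h1 := rigid_exits nb M x i
  rw [← List.cons_append, hu, List.append_assoc]
  rw [hu] at h1
  exact rigid_glue h1 h

/-- the first letter of the exits is the exit of the first state -/
theorem exits_succ' (x : State B) (i : ℕ) :
    exits nb M x (i + 1) = mt (M x.1) x.2 :: exits nb M (step nb M x) i := by
  induction i with
  | zero => simp [exits_succ, pos_succ_snd]
  | succ i ih =>
    rw [exits_succ, ih, exits_succ nb M (step nb M x)]
    have : pos nb M x (i + 1 + 1) = pos nb M (step nb M x) (i + 1) := by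
      rw [Nat.add_comm, pos_add]; rfl
    rw [this]; rfl

variable {nb}

theorem InjR.mono {R R' : ℕ} (h : InjR nb R) (hR : R' ≤ R) : InjR nb R' :=
  fun g u v hu hv lu lv e => h g u v hu hv (lu.trans hR) (lv.trans hR) e

/-- a nonempty rigid word of length at most `R` does not lead back -/
theorem walk_ne {R : ℕ} (h : InjR nb R) {g : B} {w : List Side} (hw : Rigid w) (h0 : w ≠ [])
    (hl : w.length ≤ R) : walk nb g w ≠ g := by
  intro e
  exact h0 (h g w [] hw rigid_nil hl (Nat.zero_le _) e)

/-- the chambers of a piece of length at most `R` are different -/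
theorem pos_fst_ne {R : ℕ} (h : InjR nb R) (x : State B) {i j : ℕ} (hij : i < j)
    (hj : j ≤ i + R) : (pos nb M x i).1 ≠ (pos nb M x j).1 := by
  obtain ⟨t, rfl⟩ := Nat.exists_eq_add_of_lt hij
  rw [show i + t + 1 = i + (t + 1) by ring, pos_add, ← walk_exits nb M (pos nb M x i) (t + 1)]
  intro e
  refine walk_ne h (rigid_exits nb M _ (t + 1)).tail ?_ ?_ e.symm
  · intro h0
    have := congrArg List.length h0
    simp at this
  · rw [length_exits]; omega

/-- the chord of `y` equals or crosses the chord of `x` -/
def Conf (x y : State B) : Prop :=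
  x.1 = y.1 ∧ (y.2 = x.2 ∨ y.2 = mt (M x.1) x.2 ∨ Sep x.2 (mt (M x.1) x.2) y.2 (mt (M x.1) y.2))

/-- the reversed state: the same chord in the other direction -/
def rev (x : State B) : State B := (x.1, mt (M x.1) x.2)

@[simp] theorem rev_rev (x : State B) : rev M (rev M x) = x := by
  simp [rev, mt_mt]

theorem step_rev_step (h : Invol nb) (x : State B) : step nb M (rev M (step nb M x)) = rev M x := by
  simp [rev, step, mt_mt, h x.1 (mt (M x.1) x.2)]

theorem step_injective (h : Invol nb) : Function.Injective (step nb M) := by
  intro x y e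
  have := step_rev_step M h x
  rw [e, step_rev_step M h y] at this
  have h2 := congrArg (rev M) this
  simpa using h2.symm

/-- `InjR` makes the number of chambers large -/
theorem card_gt [Fintype B] [Nonempty B] {R : ℕ} (h : InjR nb R) : R < Fintype.card B := by
  classical
  obtain ⟨g⟩ := ‹Nonempty B›
  let M0 : B → Lam := fun _ => (0, false)
  have hinj : Function.Injective (fun i : Fin (R + 1) => (pos nb M0 (g, (0 : Side)) i.1).1) := by
    intro i j e
    by_contra hne
    rcases Nat.lt_or_gt_of_ne (fun hh => hne (Fin.ext hh)) with hlt | hlt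
    · exact pos_fst_ne M0 h (g, 0) hlt (by have := j.2; omega) e
    · exact pos_fst_ne M0 h (g, 0) hlt (by have := i.2; omega) e.symm
  have := Fintype.card_le_of_injective _ hinj
  simpa using this

end Pieces

end Pool.W1
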