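import Pool.Agent.Work.MP_727c87_w1.RCI

/-! # Part RC', block MART: the counting supermartingale -/

namespace Pool.W1

namespace Mart

open Classical in
/-- number of the times `s` with `t ≤ s < T` and `El s M` -/
noncomputable def cnt {Ω : Type} (T : ℕ) (El : ℕ → Ω → Prop) (t : ℕ) (M : Ω) : ℕ :=
  ((Finset.range T).filter (fun s => t ≤ s ∧ El s M)).card

theorem cnt_top {Ω : Type} (T : ℕ) (El : ℕ → Ω → Prop) (M : Ω) : cnt T El T M = 0 := by
  classical
  unfold cnt
  rw [Finset.card_eq_zero, Finset.filter_eq_empty_iff]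
  intro s hs h
  rw [Finset.mem_range] at hs
  omega

theorem cnt_of_not {Ω : Type} {T : ℕ} {El : ℕ → Ω → Prop} {t : ℕ} {M : Ω} (h : ¬ El t M) :
    cnt T El t M = cnt T El (t + 1) M := by
  classical
  unfold cnt
  congr 1
  apply Finset.filter_congr
  intro s _
  constructor
  · rintro ⟨h1, h2⟩
    refine ⟨?_, h2⟩
    rcases Nat.eq_or_lt_of_le h1 with h3 | h3
    · subst h3; exact absurd h2 h
    · exact h3
  · rintro ⟨h1, h2⟩
    exact ⟨by omega, h2⟩

theorem cnt_of {Ω : Type} {T : ℕ} {El : ℕ → Ω → Prop} {t : ℕ} {M : Ω} (h : El t M)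
    (ht : t < T) : cnt T El t M = cnt T El (t + 1) M + 1 := by
  classical
  unfold cnt
  have h1 : t ∉ (Finset.range T).filter (fun s => t + 1 ≤ s ∧ El s M) := by
    intro hh
    rw [Finset.mem_filter] at hh
    omega
  rw [← Finset.card_insert_of_notMem h1]
  congr 1
  ext s
  simp only [Finset.mem_filter, Finset.mem_range, Finset.mem_insert]
  constructor
  · rintro ⟨h2, h3, h4⟩
    rcases Nat.eq_or_lt_of_le h3 with h5 | h5
    · left; exact h5.symm
    · right; exact ⟨h2, h5, h4⟩
  · rintro (h2 | ⟨h2, h3, h4⟩)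
    · subst h2; exact ⟨ht, le_refl _, h⟩
    · exact ⟨h2, by omega, h4⟩

/-- summing over the fibres of `f` -/
theorem card_fib {Ω X : Type} [DecidableEq X] (f : Ω → X) (A B : Finset Ω) (D : ℕ)
    (h : ∀ M ∈ A, (A.filter (fun M' => f M' = f M)).card ≤
      D * (B.filter (fun M' => f M' = f M)).card) (hBA : ∀ M ∈ B, f M ∈ A.image f) :
    A.card ≤ D * B.card := by
  rw [Finset.card_eq_sum_card_fiberwise (f := f) (s := A) (t := A.image f)
    (fun x hx => Finset.mem_coe.2 (Finset.mem_image_of_mem f hx)),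
    Finset.card_eq_sum_card_fiberwise (f := f) (s := B) (t := A.image f)
    (fun x hx => Finset.mem_coe.2 (hBA x hx)), Finset.mul_sum]
  apply Finset.sum_le_sum
  intro b hb
  obtain ⟨M, hM, rfl⟩ := Finset.mem_image.1 hb
  exact h M hM

open Classical in
theorem main {Ω X : Type} [Fintype Ω] (T D : ℕ) (H : ℕ → Ω → X) (Al El : ℕ → Ω → Prop)
    (hD : 0 < D)
    (hH : ∀ t < T, ∀ M M', H (t + 1) M = H (t + 1) M' → H t M = H t M')
    (hAl : ∀ t ≤ T, ∀ M M', H t M = H t M' → Al t M → Al t M')
    (hEl : ∀ t < T, ∀ M M', H t M = H t M' → El t M → El t M')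
    (hmono : ∀ t < T, ∀ M, Al (t + 1) M → Al t M)
    (hf : ∀ t < T, ∀ M, Al t M → El t M →
      {M' | H t M' = H t M}.ncard ≤ D * {M' | H t M' = H t M ∧ ¬ Al (t + 1) M'}.ncard)
    (n : ℕ) : ∀ t, t + n = T → ∀ (c : ℕ) (S : Finset Ω),
      (∀ M ∈ S, ∀ M', H t M' = H t M → M' ∈ S) →
      ((S.filter (fun M => Al T M ∧ c ≤ cnt T El t M)).card : ℝ) ≤
        (1 - 1 / (D : ℝ)) ^ c * (S.card : ℝ) := by
  have hDr : (0 : ℝ) < (D : ℝ) := by exact_mod_cast hD
  have hD1 : (1 : ℝ) ≤ (D : ℝ) := by exact_mod_cast hD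
  have hq0 : (0 : ℝ) ≤ 1 - 1 / (D : ℝ) := by
    rw [sub_nonneg, div_le_one hDr]; exact hD1
  -- `Al T → Al t`
  have hdown : ∀ m t, t + m = T → ∀ M, Al T M → Al t M := by
    intro m
    induction m with
    | zero => intro t ht M hM; simp at ht; subst ht; exact hM
    | succ m ih => intro t ht M hM; exact hmono t (by omega) M (ih (t + 1) (by omega) M hM)
  induction n with
  | zero =>
    intro t ht c S hS
    simp at ht
    subst ht
    rcases Nat.eq_zero_or_pos c with hc | hc
    · subst hc
      rw [pow_zero, one_mul]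
      exact_mod_cast Finset.card_filter_le _ _
    · have : S.filter (fun M => Al t M ∧ c ≤ cnt t El t M) = ∅ := by
        rw [Finset.filter_eq_empty_iff]
        rintro M _ ⟨_, h⟩
        rw [cnt_top] at h
        omega
      rw [this, Finset.card_empty, Nat.cast_zero]
      positivity
  | succ n ih =>
    intro t ht c S hS
    have htT : t < T := by omega
    rcases Nat.eq_zero_or_pos c with hc | hc
    · subst hc
      rw [pow_zero, one_mul]
      exact_mod_cast Finset.card_filter_le _ _
    obtain ⟨c, rfl⟩ : ∃ d, c = d + 1 := ⟨c - 1, by omega⟩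
    -- the two halves
    set S0 := S.filter (fun M => ¬ El t M) with hS0
    set S1 := S.filter (fun M => El t M) with hS1
    set S2 := S1.filter (fun M => Al (t + 1) M) with hS2
    set S3 := S1.filter (fun M => ¬ Al (t + 1) M) with hS3
    have sat1 : ∀ M ∈ S1, ∀ M', H t M' = H t M → M' ∈ S1 := by
      intro M hM M' hM'
      rw [hS1, Finset.mem_filter] at hM ⊢
      exact ⟨hS M hM.1 M' hM', hEl t htT M M' hM'.symm hM.2⟩
    have sat0 : ∀ M ∈ S0, ∀ M', H (t + 1) M' = H (t + 1) M → M' ∈ S0 := by
      intro M hM M' hM'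
      have h1 := hH t htT M' M hM'
      rw [hS0, Finset.mem_filter] at hM ⊢
      exact ⟨hS M hM.1 M' h1, fun h => hM.2 (hEl t htT M' M h1 h)⟩
    have sat2 : ∀ M ∈ S2, ∀ M', H (t + 1) M' = H (t + 1) M → M' ∈ S2 := by
      intro M hM M' hM'
      have h1 := hH t htT M' M hM'
      rw [hS2, Finset.mem_filter] at hM ⊢
      exact ⟨sat1 M hM.1 M' h1, hAl (t + 1) (by omega) M M' hM'.symm hM.2⟩
    have i0 := ih (t + 1) (by omega) (c + 1) S0 sat0
    have i2 := ih (t + 1) (by omega) c S2 sat2
    -- the counted set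
    have hsplit : (S.filter (fun M => Al T M ∧ c + 1 ≤ cnt T El t M)).card ≤
        (S0.filter (fun M => Al T M ∧ c + 1 ≤ cnt T El (t + 1) M)).card +
        (S2.filter (fun M => Al T M ∧ c ≤ cnt T El (t + 1) M)).card := by
      refine le_trans (Finset.card_le_card ?_) (Finset.card_union_le _ _)
      intro M hM
      rw [Finset.mem_filter] at hM
      obtain ⟨hMS, hMA, hMc⟩ := hM
      rw [Finset.mem_union]
      by_cases hE : El t M
      · right
        rw [Finset.mem_filter, hS2, Finset.mem_filter, hS1, Finset.mem_filter]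
        rw [cnt_of hE htT] at hMc
        exact ⟨⟨⟨hMS, hE⟩, hdown n (t + 1) (by omega) M hMA⟩, hMA, by omega⟩
      · left
        rw [Finset.mem_filter, hS0, Finset.mem_filter]
        rw [cnt_of_not hE] at hMc
        exact ⟨⟨hMS, hE⟩, hMA, hMc⟩
    -- failures
    have hfail : S1.card ≤ D * S3.card := by
      apply card_fib (H t) S1 S3 D
      · intro M hM
        have e1 : S1.filter (fun M' => H t M' = H t M) =
            Finset.univ.filter (fun M' => H t M' = H t M) := by
          ext M'
          simp only [Finset.mem_filter, Finset.mem_univ, true_and]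
          exact ⟨fun h => h.2, fun h => ⟨sat1 M hM M' h, h⟩⟩
        have e3 : S3.filter (fun M' => H t M' = H t M) =
            Finset.univ.filter (fun M' => H t M' = H t M ∧ ¬ Al (t + 1) M') := by
          ext M'
          rw [hS3]
          simp only [Finset.mem_filter, Finset.mem_univ, true_and]
          exact ⟨fun h => ⟨h.2, h.1.2⟩, fun h => ⟨⟨sat1 M hM M' h.1, h.2⟩, h.1⟩⟩
        by_cases hA : Al t M
        · have hE : El t M := by
            rw [hS1, Finset.mem_filter] at hM; exact hM.2
          have := hf t htT M hA hE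
          have n1 : {M' | H t M' = H t M}.ncard =
              (Finset.univ.filter (fun M' => H t M' = H t M)).card := by
            rw [← Set.ncard_coe_finset]; congr 1; ext M'; simp
          have n3 : {M' | H t M' = H t M ∧ ¬ Al (t + 1) M'}.ncard =
              (Finset.univ.filter (fun M' => H t M' = H t M ∧ ¬ Al (t + 1) M')).card := by
            rw [← Set.ncard_coe_finset]; congr 1; ext M'; simp
          rw [n1, n3] at this
          rw [e1, e3]
          exact this
        · have e4 : Finset.univ.filter (fun M' => H t M' = H t M ∧ ¬ Al (t + 1) M') =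
              Finset.univ.filter (fun M' => H t M' = H t M) := by
            apply Finset.filter_congr
            intro M' _
            constructor
            · exact fun h => h.1
            · intro h
              exact ⟨h, fun h' => hA (hAl t (by omega) M' M h (hmono t htT M' h'))⟩
          rw [e1, e3, e4]
          exact Nat.le_mul_of_pos_left _ hD
      · intro M hM
        rw [hS3, Finset.mem_filter] at hM
        exact Finset.mem_image_of_mem _ hM.1
    have hsum : S2.card + S3.card = S1.card := by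
      rw [hS2, hS3]; exact Finset.card_filter_add_card_filter_not _
    have hsum' : S1.card + S0.card = S.card := by
      rw [hS1, hS0]; exact Finset.card_filter_add_card_filter_not _
    have h2 : (S2.card : ℝ) ≤ (1 - 1 / (D : ℝ)) * (S1.card : ℝ) := by
      have a1 : (S1.card : ℝ) ≤ D * S3.card := by exact_mod_cast hfail
      have a2 : (S2.card : ℝ) + S3.card = S1.card := by exact_mod_cast hsum
      have a3 : (S1.card : ℝ) / D ≤ S3.card := by
        rw [div_le_iff₀ hDr]; linarith [mul_comm (D : ℝ) (S3.card : ℝ)]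
      have a4 : (1 - 1 / (D : ℝ)) * (S1.card : ℝ) = S1.card - S1.card / D := by ring
      rw [a4]; linarith
    have h3 : ((S.filter (fun M => Al T M ∧ c + 1 ≤ cnt T El t M)).card : ℝ) ≤
        ((S0.filter (fun M => Al T M ∧ c + 1 ≤ cnt T El (t + 1) M)).card : ℝ) +
        ((S2.filter (fun M => Al T M ∧ c ≤ cnt T El (t + 1) M)).card : ℝ) := by
      exact_mod_cast hsplit
    have h4 : (1 - 1 / (D : ℝ)) ^ c * (S2.card : ℝ) ≤
        (1 - 1 / (D : ℝ)) ^ c * ((1 - 1 / (D : ℝ)) * (S1.card : ℝ)) :=
      mul_le_mul_of_nonneg_left h2 (pow_nonneg hq0 c)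
    have h5 : (S.card : ℝ) = S1.card + S0.card := by exact_mod_cast hsum'.symm
    calc _ ≤ _ := h3
      _ ≤ (1 - 1 / (D : ℝ)) ^ (c + 1) * (S0.card : ℝ) +
          (1 - 1 / (D : ℝ)) ^ c * ((1 - 1 / (D : ℝ)) * (S1.card : ℝ)) :=
        add_le_add i0 (le_trans i2 h4)
      _ = (1 - 1 / (D : ℝ)) ^ (c + 1) * (S.card : ℝ) := by rw [h5, pow_succ]; ring

end Mart

theorem blk_MART : Stmt_MART := by
  classical
  intro Ω X _ T D H Al El hD hH hAl hEl hmono hf c
  have : Fintype Ω := Fintype.ofFinite Ω
  have h := Mart.main T D H Al El hD hH hAl hEl hmono hf T 0 (by omega) c Finset.univ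
    (fun _ _ _ _ => Finset.mem_univ _)
  have e0 : ∀ M, {t | t < T ∧ El t M}.ncard = Mart.cnt T El 0 M := by
    intro M
    unfold Mart.cnt
    rw [← Set.ncard_coe_finset]
    congr 1
    ext t
    simp
  have e1 : {M | Al T M ∧ c ≤ {t | t < T ∧ El t M}.ncard}.ncard =
      (Finset.univ.filter (fun M => Al T M ∧ c ≤ Mart.cnt T El 0 M)).card := by
    rw [← Set.ncard_coe_finset]
    congr 1
    ext M
    simp [e0]
  rw [e1, Nat.card_eq_fintype_card]
  rw [Finset.card_univ] at h
  exact h

end Pool.W1
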